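import Pool.Agent.H71.SLP.Defs

/-!
# The slope law on families: the statements of the modules

The text is K_M5 v2.1 with the route VIS (fine rows) for the static fullness (H3). All radii,
rows, blocks are in mesh units (`J / N` bits), windows `v` are in bits. See
`Pool.Agent.H71.SLP.Defs` for the objects.

Order of the constants: `ε` (accuracy), `B₂` (least number of blocks of the scale `x`), `B₁`
(number of blocks of the scale `x`), `B` (number of blocks around the row which are not full),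
`L` (length of the blocks), `N`.
-/

set_option autoImplicit false

namespace Pool.SLF

open Finset Real
open Pool.Agent.H49.Ent Pool.Agent.H32.Dense Pool.STK Pool.KA Pool.KSAT Pool.K2S Pool.PB
open Pool.KAF
open Pool.KVA (MI)

variable {k : ℕ}

/-! ### Pure statements -/

/-- **(TRV)** The trivial label: the passive coordinate along the line. -/
def TRV (k : ℕ) : Prop := ∀ (K J : ℕ) (F : Fam (k + 1) J) (i₁ : Fin (k + 1)) (r a w P : ℕ)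
  (A : F.Ω → Prop), 1 ≤ K → P + 1 ≤ a → P + 1 ≤ r → w ≤ J → Tb F i₁ r K a w P A

/-- **(YDG)** The position at the time of the sample from the position in the cell. -/
def YDG (k : ℕ) : Prop := ∃ C : ℝ, ∀ (J : ℕ) (F : Fam (k + 1) J) (i₁ : Fin (k + 1))
  (p : F.Ω → ℝ) (N q : ℕ) (d : Dts F) (R a v X : ℕ), IsLaw p → v ≤ J →
  (a + 2) * (J / N) + X ≤ q * (J / N) + v →
  CH p (tpx F i₁ ((a + 2) * (J / N) + X))
    (fun ω => (yx F i₁ N a v X ω, (cx F i₁ N q d R a v ω, F.W ω))) ≤ C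

/-- **(CORE)** The critical step in one context, for most contexts, in average form (lemma L1,
corollary L1W): the coefficients of the shape are polynomials of degree `K` in the time, for most
samples. `P` is the rounding of the context, `e` the unit of the heights. -/
def CORE (k : ℕ) : Prop :=
  ∀ (K : ℕ) (C₀ c ε : ℝ), 1 ≤ K → 1 ≤ C₀ → 0 < c → c ≤ 1 → 0 < ε →
    ∃ (κ₂ κ π₀ ι ε₀ C₁ : ℝ) (j₀ X₀ : ℕ), 0 < κ₂ ∧ κ₂ ≤ 1 ∧ 0 < κ ∧ κ ≤ 1 ∧ 0 < π₀ ∧ 0 < ι ∧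
      0 < ε₀ ∧ ∀ (J : ℕ) (F : Fam (k + 1) J) (i₁ : Fin (k + 1)) (a w q P e X : ℕ)
        (H : Sl F → MvPolynomial (Fin (k + 1)) ℝ) (Gf : F.Ω → MvPolynomial (Fin (k + 1)) ℝ)
        (p : F.Ω → ℝ), X₀ ≤ X → IsLaw p → w ≤ J → a + X ≤ q + w →
        (∀ ω, 0 < p ω → (Gf ω).totalDegree ≤ K ∧
          (∀ z : Fin (k + 1) → ℝ, (∀ i, 0 ≤ z i ∧ z i ≤ 1) → z i₁ = F.tw w ω →
            |2 ^ e * (MvPolynomial.eval z (SLO.plb F i₁ a w q ω (Gf ω)) -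
              MvPolynomial.eval z (SLO.Rc F i₁ a w q K P H ω))| ≤ C₀) ∧
          |F.x ω i₁ - MvPolynomial.eval (bp F i₁ ω) (Gf ω)| ≤ 1 / 2 ^ (e + X)) →
        (∀ ω ω', 0 < p ω → 0 < p ω' → slam F w ω = slam F w ω' → F.W ω = F.W ω' →
          Gf ω = Gf ω') →
        -- most lines have bounded numbers
        Pr p {ω | ∃ i < K, 1 < |(SLO.cl F i₁ a w q K P e H ω).coeff (i + 1)|} ≤ ι →
        -- (H1)
        MI p F.W (slam F w) (SLO.ctx F i₁ a w q P H) ≤ ι * X →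
        CH p (SLO.shd F i₁ a w q K P e X H Gf)
          (fun ω => (SLO.ctx F i₁ a w q P H ω, F.W ω)) ≤ ι * X →
        (1 - ι) * X * Real.log 2 ≤ CH p (fun ω => ⌊(2 : ℝ) ^ X * F.tw w ω⌋) (slam F w) →
        j₀ * Real.log 2 - ε₀ ≤ CH p (fun ω => ⌊(2 : ℝ) ^ j₀ * F.tw w ω⌋) (slam F w) →
        -- (H2)
        MI p (fun ω => ⌊(2 : ℝ) ^ X * SLO.nuw F i₁ a w q K P e H Gf ω⌋)
          (fun ω => ((fun j => ⌊(2 : ℝ) ^ X * SLO.yt F i₁ a w ω j⌋ : Fin k → ℤ),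
            (fun i => ⌊(2 : ℝ) ^ X * (SLO.cl F i₁ a w q K P e H ω).coeff (i.val + 1)⌋ :
              Fin K → ℤ)))
          (fun ω => (SLO.ctx F i₁ a w q P H ω, F.W ω)) ≤ ι * X →
        -- (H3)
        (k - ι) * X * Real.log 2 ≤ CH p (fun ω => (fun j => ⌊(2 : ℝ) ^ X *
          SLO.yt F i₁ a w ω j⌋ : Fin k → ℤ)) (SLO.ctx F i₁ a w q P H) →
        -- (H5)
        (∀ r h : ℕ, κ * X ≤ h → r + h ≤ X → ∀ E : Set F.Ω, π₀ ≤ Pr p E →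
          CH (Pool.Agent.H49.Ent.cond p (fun ω => ω ∈ E) True)
            (fun ω => ⌊(2 : ℝ) ^ (r + h) * SLO.nuw F i₁ a w q K P e H Gf ω⌋)
            (fun ω => (⌊(2 : ℝ) ^ r * SLO.nuw F i₁ a w q K P e H Gf ω⌋,
              (SLO.ctx F i₁ a w q P H ω, F.W ω))) ≤ (1 - c) * h * Real.log 2) →
        ∃ Rr : Sl F → Fin (K + 1) → M5.Mon k K → ℝ, (∀ l i al, |Rr l i al| ≤ C₁) ∧
          Pr p {ω | ∃ al, (2 : ℝ) ^ (-(κ₂ * X)) < |SLO.shw F i₁ a w q K P e H Gf ω al -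
            ∑ i, Rr (slam F w ω) i al * F.tw w ω ^ (i : ℕ)|} ≤ ε

/-- **(FNR)** Fine rows: in a block which is not full there is a place with `2 B` consecutive
shorter blocks which are not full. -/
def FNR (m : ℕ) : Prop := ∀ (c : ℝ) (B : ℕ), 0 < c → c ≤ 1 → ∃ Λ : ℕ, 0 < Λ ∧
  ∀ (J : ℕ) (F : Fam m J) (A : F.Ω → Prop) (N L R : ℕ), 0 < Pe F.p A → Λ ≤ L → L ≤ R →
    R ≤ N → Zr F c N (R - L) R A →
    ∃ l R' : ℕ, 0 < l ∧ L ≤ Λ * l ∧ R - L + B * l ≤ R' ∧ R' + B * l ≤ R ∧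
      GC F (c / 4) N l B R' A

/-! ### Statements about families -/

/-- **(H1F)** (helper25) The time is full given the line. -/
def H1F (S : FCl (k + 1)) : Prop :=
  ∀ η : ℝ, 0 < η → Clg S (fun J F A => IsLaw (Qa F A) ∧
    (J : ℝ) * Real.log 2 - η * J ≤ CH (Qa F A) F.T (fun ω => (F.l ω, F.Z ω)))

/-- **(DAT)** Valid data exist, for the thresholds `thrT` (loss: one mesh unit). -/
def DAT (S : FCl (k + 1)) : Prop :=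
  ∀ (c h₁ X : ℝ) (K : ℕ), 0 < c → 0 < h₁ → 0 < X → 1 ≤ K → ∃ N₁ : ℕ, ∀ N ≥ N₁,
    ∀ (i₁ : Fin (k + 1)) (ρ : ℕ), (ρ : ℝ) + X * N ≤ N →
    Clg S (fun J F A => Ch F i₁ ⌊h₁ * J⌋₊ A → Pls F c N ρ A →
      ∃ d : Dts F, d.OK i₁ N ρ K (fun a w => thrT F i₁ N ρ K A a w - 1) A)

/-- **(LIN)** The numbers of most lines are bounded. -/
def LIN (S : FCl (k + 1)) : Prop :=
  ∀ (c h₁ X : ℝ) (K : ℕ) (η : ℝ), 0 < c → 0 < h₁ → 0 < X → 1 ≤ K → 0 < η →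
    ∀ (N : ℕ) (i₁ : Fin (k + 1)) (ρ R q a w : ℕ), w ≤ a → a ≤ ρ → 1 ≤ R → a + 3 ≤ w + q →
    (ρ : ℝ) + X * N ≤ N →
    Clg S (fun J F A => Ch F i₁ ⌊h₁ * J⌋₊ A → Pls F c N ρ A →
      ∀ (p : ℕ → ℕ → ℕ) (d : Dts F), d.OK i₁ N ρ K p A → R ≤ p a w →
      ∀ v : ℕ, w * (J / N) ≤ v → v ≤ a * (J / N) →
      Pr (Qa F A) {ω | ∃ i < K, 1 < |(lp F i₁ N K q d R a v ω).coeff (i + 1)|} ≤ η)

/-- **(MKF)** (helper59) The tangential positions are full given the static records, the digits of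
the direction cost their number once. -/
def MKF (S : FCl (k + 1)) : Prop :=
  ∀ (c h₁ X : ℝ) (K : ℕ) (η : ℝ), 0 < c → 0 < h₁ → 0 < X → 1 ≤ K → 0 < η →
    ∀ (N : ℕ) (i₁ : Fin (k + 1)) (ρ q a₀ x n : ℕ), 0 < x → a₀ + n * x + 2 ≤ ρ →
    (ρ : ℝ) + X * N ≤ N →
    Clg S (fun J F A => Ch F i₁ ⌊h₁ * J⌋₊ A → Pls F c N ρ A →
      ∀ (p : ℕ → ℕ → ℕ) (d : Dts F), d.OK i₁ N ρ K p A →
      ∑ j ∈ range n, (k * ((x * (J / N) : ℕ) : ℝ) * Real.log 2 -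
        CH (Qa F A) (tpx F i₁ ((a₀ + (j + 1) * x + 2) * (J / N)))
          (fun ω => ((fun i : Fin (j + 1) => st F i₁ N ρ q d (p (a₀ + i * x) (a₀ + i * x))
            (a₀ + i * x) ω), F.W ω))) ≤
        k * ((q * (J / N) : ℕ) : ℝ) * Real.log 2 + η * J)

/-- **(FRF)** (helper49, 11, 65) One sheet in every static box: the shape to `R + Y` digits is
determined by the static box of precision `R`, up to `ε Y`. -/
def FRF (S : FCl (k + 1)) : Prop :=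
  ∀ (c h₁ X : ℝ) (K : ℕ) (ε : ℝ), 0 < c → c ≤ 1 → 0 < h₁ → 0 < X → 1 ≤ K → 0 < ε →
    ∃ B₂ : ℕ, 1 ≤ B₂ ∧ ∀ B₁ ≥ B₂, ∃ B₀ : ℕ, ∀ B ≥ B₀, ∃ L₁ : ℕ, ∀ L ≥ L₁, ∀ N Y : ℕ,
    B₂ * L ≤ Y → Y ≤ B₁ * L →
    ∀ (i₁ : Fin (k + 1)) (ρ R a : ℕ), a ≤ R + 3 → a ≤ ρ → R + B * L ≤ ρ →
    (ρ : ℝ) + X * N ≤ N →
    Clg S (fun J F A => Ch F i₁ ⌊h₁ * J⌋₊ A → Pls F c N ρ A → GC F c N L B R A →
      ∀ (p : ℕ → ℕ → ℕ) (d : Dts F), d.OK i₁ N ρ K p A → Gap p R (B * L) a →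
      CH (Qa F A) (shs F i₁ N ρ K d R a (Y * (J / N))) (bxs F i₁ N ρ K d R a 0) ≤
        ε * ((Y * (J / N) : ℕ) : ℝ))

/-- **(SHD)** (from FRF) The shape in the context is determined by the context and the time. -/
def SHD (S : FCl (k + 1)) : Prop :=
  ∀ (c h₁ X : ℝ) (K : ℕ) (ε : ℝ), 0 < c → c ≤ 1 → 0 < h₁ → 0 < X → 1 ≤ K → 0 < ε →
    ∃ B₂ : ℕ, 1 ≤ B₂ ∧ ∀ B₁ ≥ B₂, ∃ B₀ : ℕ, ∀ B ≥ B₀, ∃ L₁ : ℕ, ∀ L ≥ L₁, ∀ N x : ℕ,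
    B₂ * L ≤ x → x ≤ B₁ * L →
    ∀ (i₁ : Fin (k + 1)) (ρ R q a w : ℕ), w ≤ a → a ≤ R + 3 → a ≤ ρ → a + 3 + x ≤ w + q →
    R + B * L ≤ ρ → (ρ : ℝ) + X * N ≤ N →
    Clg S (fun J F A => Ch F i₁ ⌊h₁ * J⌋₊ A → Pls F c N ρ A → GC F c N L B R A →
      ∀ (p : ℕ → ℕ → ℕ) (d : Dts F), d.OK i₁ N ρ K p A → Gap p R (B * L) a → R ≤ p a w →
      ∀ v : ℕ, w * (J / N) ≤ v → v ≤ a * (J / N) →
      CH (Qa F A) (shx F i₁ N ρ K q d R a v (x * (J / N)))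
        (fun ω => (cx F i₁ N q d R a v ω, F.W ω)) ≤ ε * ((x * (J / N) : ℕ) : ℝ))

/-- **(H5F)** (helper7; from FRF, MKF) The blocks of rows of the heights are not full, on all
events of probability at least `p₀`. -/
def H5F (S : FCl (k + 1)) : Prop :=
  ∀ (c h₁ X : ℝ) (K : ℕ) (κ p₀ : ℝ), 0 < c → c ≤ 1 → 0 < h₁ → 0 < X → 1 ≤ K → 0 < κ →
    0 < p₀ →
    ∃ B₂ : ℕ, 1 ≤ B₂ ∧ ∀ B₁ ≥ B₂, ∃ B₀ : ℕ, ∀ B ≥ B₀, ∃ L₁ : ℕ, ∀ L ≥ L₁, ∀ N x : ℕ,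
    B₂ * L ≤ x → x ≤ B₁ * L →
    ∀ (i₁ : Fin (k + 1)) (ρ R q a w : ℕ), w ≤ a → a ≤ R + 3 → a ≤ ρ → a + 3 + x ≤ w + q →
    R + B * L ≤ ρ → (ρ : ℝ) + X * N ≤ N →
    Clg S (fun J F A => Ch F i₁ ⌊h₁ * J⌋₊ A → Pls F c N ρ A → GC F c N L B R A →
      ∀ (p : ℕ → ℕ → ℕ) (d : Dts F), d.OK i₁ N ρ K p A → Gap p R (B * L) a → R ≤ p a w →
      ∀ v : ℕ, w * (J / N) ≤ v → v ≤ a * (J / N) →
      ∀ r h : ℕ, κ * ((x * (J / N) : ℕ) : ℝ) ≤ h → r + h ≤ x * (J / N) →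
      ∀ E : Set F.Ω, p₀ ≤ Pr (Qa F A) E →
        CH (Pool.Agent.H49.Ent.cond (Qa F A) (fun ω => ω ∈ E) True)
          (nud F i₁ N ρ K q d R a v (r + h))
          (fun ω => (nud F i₁ N ρ K q d R a v r ω, (cx F i₁ N q d R a v ω, F.W ω))) ≤
          (1 - c / 2) * h * Real.log 2)

/-- **(H2S)** (helper31, 25, 81) One step of the chain of windows at a fixed row: from
`(a, v)` to a longer window `v'` and a smaller ball `a'`. -/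
def H2S (S : FCl (k + 1)) : Prop :=
  ∀ (c h₁ X : ℝ) (K : ℕ) (ε : ℝ), 0 < c → c ≤ 1 → 0 < h₁ → 0 < X → 1 ≤ K → 0 < ε →
    ∃ B₂ : ℕ, 1 ≤ B₂ ∧ ∀ B₁ ≥ B₂, ∃ B₀ : ℕ, ∀ B ≥ B₀, ∃ L₁ : ℕ, ∀ L ≥ L₁, ∀ N x : ℕ,
    B₂ * L ≤ x → x ≤ B₁ * L →
    ∀ (i₁ : Fin (k + 1)) (ρ R q a w a' w' : ℕ), w' ≤ w → w ≤ a → a ≤ a' → a' ≤ R + 3 →
    a' ≤ ρ → a' + 3 + x ≤ w' + q → R + B * L ≤ ρ → (ρ : ℝ) + X * N ≤ N →
    Clg S (fun J F A => Ch F i₁ ⌊h₁ * J⌋₊ A → Pls F c N ρ A → GC F c N L B R A →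
      ∀ (p : ℕ → ℕ → ℕ) (d : Dts F), d.OK i₁ N ρ K p A → Gap p R (B * L) a → R ≤ p a w →
      R ≤ p a' w' → ∀ v v' X' : ℕ, X' = x * (J / N) → w * (J / N) ≤ v → w' * (J / N) ≤ v' →
      v' + X' ≤ v → v ≤ a * (J / N) →
      MI (Qa F A) (nud F i₁ N ρ K q d R a v X')
        (fun ω => (yx F i₁ N a v X' ω, cdg F i₁ N K q d R a v X' ω))
        (fun ω => (cx F i₁ N q d R a v ω, F.W ω)) ≤
        CH (Qa F A) (nud F i₁ N ρ K q d R a v X') (fun ω => (cx F i₁ N q d R a v ω, F.W ω)) -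
        CH (Qa F A) (nud F i₁ N ρ K q d R a' v' X')
          (fun ω => (cx F i₁ N q d R a' v' ω, F.W ω)) +
        (k * (X' : ℝ) * Real.log 2 - CH (Qa F A) (yx F i₁ N a' v' X')
          (fun ω => (cx F i₁ N q d R a' v' ω, (st F i₁ N ρ q d (p a' a') a' ω, F.W ω)))) +
        ε * ((((a' - a) + x) * (J / N) : ℕ) : ℝ))

/-- **(VIS)** (helper33; from FRF, N1, H5, FNR) After a block of rows which is not full, the
context of the tube is determined by the static record of the ball, up to the digits of the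
block. -/
def VIS (S : FCl (k + 1)) : Prop :=
  ∀ (c h₁ X : ℝ) (K : ℕ), 0 < c → c ≤ 1 → 0 < h₁ → 0 < X → 1 ≤ K → ∃ C₂ : ℕ, 1 ≤ C₂ ∧
    ∀ η : ℝ, 0 < η → ∃ L₁ : ℕ, ∀ L ≥ L₁, ∀ (N : ℕ) (i₁ : Fin (k + 1)) (ρ R q a w : ℕ),
    w ≤ a → a ≤ R + 3 → a ≤ ρ → a + 3 ≤ w + q → L ≤ R → R + L ≤ ρ → (ρ : ℝ) + X * N ≤ N →
    Clg S (fun J F A => Ch F i₁ ⌊h₁ * J⌋₊ A → Pls F c N ρ A → Zr F c N (R - L) R A →
      ∀ (p : ℕ → ℕ → ℕ) (d : Dts F), d.OK i₁ N ρ K p A → Gap p R L a → R ≤ p a w →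
      ∀ v : ℕ, w * (J / N) ≤ v → v ≤ a * (J / N) →
      CH (Qa F A) (cx F i₁ N q d R a v)
        (fun ω => (st F i₁ N ρ q d (p a a) a ω, F.W ω)) ≤
        (C₂ * L + η * N) * ((J / N : ℕ) : ℝ))

/-- **(FIN)** The production: if the coefficients of the shapes are polynomials in the time of
bounded size for most samples, there is a label on the smaller tube. -/
def FIN (S : FCl (k + 1)) : Prop :=
  ∀ (c h₁ X : ℝ) (K : ℕ) (C₁ : ℝ), 0 < c → 0 < h₁ → 0 < X → 1 ≤ K →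
    ∀ (N : ℕ) (i₁ : Fin (k + 1)) (ρ R q a w s E : ℕ), w ≤ a → a ≤ R + 3 → a + s ≤ ρ →
    a + 3 + E ≤ w + q → 2 * K + 8 ≤ s → (K + 1) * s ≤ E → 1 ≤ R → R + E ≤ ρ →
    (ρ : ℝ) + X * N ≤ N →
    Clg S (fun J F A => Ch F i₁ ⌊h₁ * J⌋₊ A → Pls F c N ρ A →
      ∀ (p : ℕ → ℕ → ℕ) (d : Dts F), d.OK i₁ N ρ K p A → R ≤ p a w → R + E ≤ p a a →
      ∀ v : ℕ, w * (J / N) ≤ v → v ≤ (w + 1) * (J / N) → v ≤ a * (J / N) →
      ∀ Rr : Sl F → Fin (K + 1) → M5.Mon k K → ℝ, (∀ l i al, |Rr l i al| ≤ C₁) →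
      Pr (Qa F A) {ω | ∃ al, 1 / (2 : ℝ) ^ (E * (J / N)) <
        |sh F i₁ N ρ K q d R a v ω al - ∑ i, Rr (slam F v ω) i al * F.tw v ω ^ (i : ℕ)|} ≤
        1 / 8 →
      Tb F i₁ (ρ * (J / N)) K ((a + s) * (J / N)) ((w + s) * (J / N))
        ((R + 1 + K * s) * (J / N)) A)

/-! ### The output -/

/-- The slope law fails at the row `R` and the window `w`: `a` is the first radius of the row
`R + 1`, the pair is in the thin zone, the gap at the ball is at least `γ`, and there is no label of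
precision `R + 1 + K s` on the tube `(a + s, w + s)`. -/
def Bad {J : ℕ} (F : Fam (k + 1) J) (i₁ : Fin (k + 1)) (N K ρ Q : ℕ) (γ : ℝ) (s : ℕ)
    (A : F.Ω → Prop) (R w : ℕ) : Prop :=
  ∃ a : ℕ, w ≤ a ∧ N ≤ 2 * Q * (a - w) ∧ Q * (a - w) ≤ N ∧ a + s ≤ ρ ∧
    R + 1 ≤ thrT F i₁ N ρ K A a w ∧ (∀ a' < a, w ≤ a' → thrT F i₁ N ρ K A a' w ≤ R) ∧
    R + γ * N ≤ thrT F i₁ N ρ K A a a ∧
    thrT F i₁ N ρ K A (a + s) (w + s) < R + 1 + K * s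

open Classical in
/-- **(SLO)** The slope law in the thin zone, at the rows with a good context. -/
def SLO (S : FCl (k + 1)) : Prop :=
  ∀ (c h₁ X : ℝ) (K : ℕ) (ε : ℝ), 0 < c → 0 < h₁ → 0 < X → 1 ≤ K → 0 < ε →
    ∃ B U : ℕ, 0 < U ∧ U ≤ B ∧ ∃ Q₀ : ℕ, ∀ Q ≥ Q₀, ∀ γ : ℝ, 0 < γ →
    ∃ M₁ : ℕ, ∀ M ≥ M₁, ∃ L₁ : ℕ, ∀ L ≥ L₁, ∀ N : ℕ, N = M * L →
    ∀ (i₁ : Fin (k + 1)) (ρ : ℕ), (ρ : ℝ) + X * N ≤ N →
    Clg S (fun J F A => Ch F i₁ ⌊h₁ * J⌋₊ A → Pls F c N ρ A →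
      (((range (N + 1) ×ˢ range (N + 1)).filter fun z => z.1 + B * L ≤ ρ ∧
        GC F c N L B z.1 A ∧ Bad F i₁ N K ρ Q γ (U * L) A z.1 z.2).card : ℝ) ≤
        ε * N * (N / Q))

end Pool.SLF
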