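import Pool.Agent.H71.SLP.Skel
import Pool.Agent.H25.SLF.H1F
import Pool.Agent.H36.M5.Dat
import Pool.Agent.H39.SLO.Lin
import Pool.Agent.H59.SLF.Ydg
import Pool.Agent.H59.SLF.Mkf
import Pool.Agent.H81.SLP.CoreK
import Pool.Agent.H28.SLO.Fin6
import Pool.Agent.H31.SLF.H2S
import Pool.Agent.H7.SLF.Shd
import Pool.Agent.H7.SLF.H5F
import Pool.Agent.H49.FRF.All

/-!
# The slope law on families: all modules
-/

set_option autoImplicit false

namespace Pool.SLF

open Pool.PB

variable {k : ℕ}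

/-- The slope law from the nestedness of the contexts and their visibility. -/
theorem slo_of_nv {S : FCl (k + 1)} (hS : SPS S (k + 1 - 2)) (hNST : NST S) (hVIS : VIS S) :
    SLO S :=
  slo_of_rows (ydg_thm k) (Pool.SLO.corek k) (h1f_thm S) (Pool.M5.Dat.dat_thm hS)
    (Pool.Agent.H39.SLO.lin_thm S) (mkf_thm hS) (shd_thm (Pool.FRF.frf hS))
    (h5f_thm hS (Pool.FRF.frf hS)) (h2s_of (shd_thm (Pool.FRF.frf hS)) hNST) hVIS
    (Pool.SLO.FN.fin_thm S)

end Pool.SLF
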