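import Pool.Agent.H71.SLP.All
import Pool.Agent.H25.SLF.NestC
import Pool.Agent.H59.SLF.Crd
import Pool.Agent.H33.PTH.VisT

/-!
# The slope law on families, from the rows of the contexts
-/

set_option autoImplicit false

namespace Pool.SLF

open Pool.PB

variable {k : ℕ}

/-- The slope law from `H5W`. -/
theorem slo_of_h5w {S : FCl (k + 1)} (hS : SPS S (k + 1 - 2)) (h5 : Pool.PTH.H5W S) : SLO S :=
  slo_of_nv hS (nst_of (crd_thm (Pool.FRF.frf hS))) (Pool.PTH.vis_of_h5w h5)

end Pool.SLF
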