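import Pool.Agent.H71.SLP.Pair

/-!
# The slope law on families: the facts as claims
-/

set_option autoImplicit false

namespace Pool.SLF

open Finset Real
open Pool.Agent.H49.Ent Pool.Agent.H32.Dense Pool.STK Pool.KA Pool.KSAT Pool.K2S Pool.PB
open Pool.KAF
open Pool.KVA (MI)

variable {k m : ℕ}

theorem all2 {S : FCl m} (n₁ n₂ : ℕ) (C : ℕ → ℕ → Prop) (Φ : ℕ → ℕ → Stat m)
    (h : ∀ a b, C a b → Clg S (Φ a b)) :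
    Clg S (fun J F A => ∀ a ≤ n₁, ∀ b ≤ n₂, C a b → Φ a b J F A) := by
  refine Clg.mono (J₂ := 0) (Clg.all (n₁ + 1) fun a _ => Clg.all (n₂ + 1) fun b _ =>
    Clg.cnd (h a b)) ?_
  intro J _ F A h a ha b hb hC
  exact h a (by omega) b (by omega) hC

theorem all3 {S : FCl m} (n : ℕ) (C : ℕ → ℕ → ℕ → Prop) (Φ : ℕ → ℕ → ℕ → Stat m)
    (h : ∀ a b c, C a b c → Clg S (Φ a b c)) :
    Clg S (fun J F A => ∀ a ≤ n, ∀ b ≤ n, ∀ c ≤ n, C a b c → Φ a b c J F A) := by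
  refine Clg.mono (J₂ := 0) (Clg.all (n + 1) fun a _ => Clg.all (n + 1) fun b _ =>
    Clg.all (n + 1) fun c _ => Clg.cnd (h a b c)) ?_
  intro J _ F A h a ha b hb c hc hC
  exact h a (by omega) b (by omega) c (by omega) hC

theorem all5 {S : FCl m} (n : ℕ) (C : ℕ → ℕ → ℕ → ℕ → ℕ → Prop)
    (Φ : ℕ → ℕ → ℕ → ℕ → ℕ → Stat m) (h : ∀ a b c d e, C a b c d e → Clg S (Φ a b c d e)) :
    Clg S (fun J F A => ∀ a ≤ n, ∀ b ≤ n, ∀ c ≤ n, ∀ d ≤ n, ∀ e ≤ n, C a b c d e →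
      Φ a b c d e J F A) := by
  refine Clg.mono (J₂ := 0) (Clg.all (n + 1) fun a _ => Clg.all (n + 1) fun b _ =>
    Clg.all (n + 1) fun c _ => Clg.all (n + 1) fun d _ => Clg.all (n + 1) fun e _ =>
    Clg.cnd (h a b c d e)) ?_
  intro J _ F A h a ha b hb c hc d hd e he hC
  exact h a (by omega) b (by omega) c (by omega) d (by omega) e (by omega) hC

theorem Zr_mono {J : ℕ} {F : Fam m J} {c c' : ℝ} {N p₁ p₂ : ℕ} {A : F.Ω → Prop} (hc : c' ≤ c)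
    (hp : p₁ ≤ p₂) (h : Zr F c N p₁ p₂ A) : Zr F c' N p₁ p₂ A := by
  unfold Zr Zm at h ⊢
  refine h.trans (mul_le_mul_of_nonneg_right (by linarith) ?_)
  have h1 : ((p₁ * (J / N) : ℕ) : ℝ) ≤ ((p₂ * (J / N) : ℕ) : ℝ) := by
    exact_mod_cast Nat.mul_le_mul_right _ hp
  exact mul_nonneg (by linarith) (Real.log_nonneg (by norm_num))

theorem Pls_mono {J : ℕ} {F : Fam m J} {c c' : ℝ} {N p : ℕ} {A : F.Ω → Prop} (hc : c' ≤ c)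
    (h : Pls F c N p A) : Pls F c' N p A :=
  fun p' h1 h2 => Zr_mono hc h1.le (h p' h1 h2)

theorem GC_mono {J : ℕ} {F : Fam m J} {c c' : ℝ} {N L B R : ℕ} {A : F.Ω → Prop} (hc : c' ≤ c)
    (h : GC F c N L B R A) : GC F c' N L B R A := by
  refine ⟨h.1, fun j hj => Zr_mono hc ?_ (h.2 j hj)⟩
  have : j * L ≤ (j + 1) * L := Nat.mul_le_mul_right _ (by omega)
  omega

variable {S : FCl (k + 1)} {c h₁ X : ℝ} {K : ℕ}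

theorem lin_clg {η : ℝ} (hLIN : LIN S) (hc : 0 < c) (hh : 0 < h₁) (hX : 0 < X) (hK : 1 ≤ K)
    (hη : 0 < η) (N : ℕ) (i₁ : Fin (k + 1)) (ρ q : ℕ) (hρ : (ρ : ℝ) + X * N ≤ N) :
    Clg S (fun J F A => Ch F i₁ ⌊h₁ * J⌋₊ A → Pls F c N ρ A → ∀ d : Dts F,
      d.OK i₁ N ρ K (pT F i₁ N ρ K A) A → FLin F i₁ N ρ K q η A d) := by
  refine Clg.mono (J₂ := 0) (all3 (S := S) N
    (fun R a w => w ≤ a ∧ a ≤ ρ ∧ 1 ≤ R ∧ a + 3 ≤ w + q) _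
    fun R a w h => hLIN c h₁ X K η hc hh hX hK hη N i₁ ρ R q a w h.1 h.2.1 h.2.2.1 h.2.2.2 hρ) ?_
  intro J _ F A G hCh hPl d hd R hR a ha w hw h1 h2 h3 h4 h5 v hv1 hv2
  exact G R hR a ha w hw ⟨h1, h2, h3, h4⟩ hCh hPl _ d hd h5 v hv1 hv2

theorem mkf_clg' {η : ℝ} (hMKF : MKF S) (hc : 0 < c) (hh : 0 < h₁) (hX : 0 < X) (hK : 1 ≤ K)
    (hη : 0 < η) (N : ℕ) (i₁ : Fin (k + 1)) (ρ q x : ℕ) (hx : 1 ≤ x)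
    (hρ : (ρ : ℝ) + X * N ≤ N) :
    Clg S (fun J F A => Ch F i₁ ⌊h₁ * J⌋₊ A → Pls F c N ρ A → ∀ d : Dts F,
      d.OK i₁ N ρ K (pT F i₁ N ρ K A) A →
      FMkf F i₁ N ρ K q x (k * ((q * (J / N) : ℕ) : ℝ) * Real.log 2 + η * J) A d) := by
  refine Clg.mono (J₂ := 0) (all2 (S := S) x N (fun a₀ n => a₀ + n * x + 2 ≤ ρ) _
    fun a₀ n h => hMKF c h₁ X K η hc hh hX hK hη N i₁ ρ q a₀ x n (by omega) h hρ) ?_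
  intro J _ F A G hCh hPl d hd a₀ ha n hn h
  exact G a₀ ha.le n hn h hCh hPl _ d hd

theorem shd_clg {ι : ℝ} (N : ℕ) (i₁ : Fin (k + 1)) (ρ q x L B : ℕ)
    (h : ∀ (R a w : ℕ), w ≤ a → a ≤ R + 3 → a ≤ ρ → a + 3 + x ≤ w + q → R + B * L ≤ ρ →
    Clg S (fun J F A => Ch F i₁ ⌊h₁ * J⌋₊ A → Pls F c N ρ A → GC F c N L B R A →
      ∀ (p : ℕ → ℕ → ℕ) (d : Dts F), d.OK i₁ N ρ K p A → Gap p R (B * L) a → R ≤ p a w →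
      ∀ v : ℕ, w * (J / N) ≤ v → v ≤ a * (J / N) →
      CH (Qa F A) (shx F i₁ N ρ K q d R a v (x * (J / N)))
        (fun ω => (cx F i₁ N q d R a v ω, F.W ω)) ≤ ι * ((x * (J / N) : ℕ) : ℝ))) :
    Clg S (fun J F A => Ch F i₁ ⌊h₁ * J⌋₊ A → Pls F c N ρ A → ∀ d : Dts F,
      d.OK i₁ N ρ K (pT F i₁ N ρ K A) A → FShd F i₁ N ρ K q x L B c ι A d) := by
  refine Clg.mono (J₂ := 0) (all3 (S := S) N (fun R a w => w ≤ a ∧ a ≤ R + 3 ∧ a ≤ ρ ∧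
      a + 3 + x ≤ w + q ∧ R + B * L ≤ ρ) _
    fun R a w h' => h R a w h'.1 h'.2.1 h'.2.2.1 h'.2.2.2.1 h'.2.2.2.2) ?_
  intro J _ F A G hCh hPl d hd R hR a ha w hw h1 h2 h3 h4 h5 hG hg hRp v hv1 hv2
  exact G R hR a ha w hw ⟨h1, h2, h3, h4, h5⟩ hCh hPl hG _ d hd hg hRp v hv1 hv2

theorem h5_clg {κ π₀ : ℝ} (N : ℕ) (i₁ : Fin (k + 1)) (ρ q x L B : ℕ)
    (h : ∀ (R a w : ℕ), w ≤ a → a ≤ R + 3 → a ≤ ρ → a + 3 + x ≤ w + q → R + B * L ≤ ρ →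
    Clg S (fun J F A => Ch F i₁ ⌊h₁ * J⌋₊ A → Pls F c N ρ A → GC F c N L B R A →
      ∀ (p : ℕ → ℕ → ℕ) (d : Dts F), d.OK i₁ N ρ K p A → Gap p R (B * L) a → R ≤ p a w →
      ∀ v : ℕ, w * (J / N) ≤ v → v ≤ a * (J / N) →
      ∀ r h : ℕ, κ * ((x * (J / N) : ℕ) : ℝ) ≤ h → r + h ≤ x * (J / N) →
      ∀ E : Set F.Ω, π₀ ≤ Pr (Qa F A) E →
        CH (Pool.Agent.H49.Ent.cond (Qa F A) (fun ω => ω ∈ E) True)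
          (nud F i₁ N ρ K q d R a v (r + h))
          (fun ω => (nud F i₁ N ρ K q d R a v r ω, (cx F i₁ N q d R a v ω, F.W ω))) ≤
          (1 - c / 2) * h * Real.log 2)) :
    Clg S (fun J F A => Ch F i₁ ⌊h₁ * J⌋₊ A → Pls F c N ρ A → ∀ d : Dts F,
      d.OK i₁ N ρ K (pT F i₁ N ρ K A) A → FH5 F i₁ N ρ K q x L B c κ π₀ A d) := by
  refine Clg.mono (J₂ := 0) (all3 (S := S) N (fun R a w => w ≤ a ∧ a ≤ R + 3 ∧ a ≤ ρ ∧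
      a + 3 + x ≤ w + q ∧ R + B * L ≤ ρ) _
    fun R a w h' => h R a w h'.1 h'.2.1 h'.2.2.1 h'.2.2.2.1 h'.2.2.2.2) ?_
  intro J _ F A G hCh hPl d hd R hR a ha w hw h1 h2 h3 h4 h5 hG hg hRp v hv1 hv2
  exact G R hR a ha w hw ⟨h1, h2, h3, h4, h5⟩ hCh hPl hG _ d hd hg hRp v hv1 hv2

theorem h2_clg {ε₂ : ℝ} (N : ℕ) (i₁ : Fin (k + 1)) (ρ q x L B : ℕ)
    (h : ∀ (R a w a' w' : ℕ), w' ≤ w → w ≤ a → a ≤ a' → a' ≤ R + 3 → a' ≤ ρ →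
    a' + 3 + x ≤ w' + q → R + B * L ≤ ρ →
    Clg S (fun J F A => Ch F i₁ ⌊h₁ * J⌋₊ A → Pls F c N ρ A → GC F c N L B R A →
      ∀ (p : ℕ → ℕ → ℕ) (d : Dts F), d.OK i₁ N ρ K p A → Gap p R (B * L) a → R ≤ p a w →
      R ≤ p a' w' → ∀ v v' X' : ℕ, X' = x * (J / N) → w * (J / N) ≤ v → w' * (J / N) ≤ v' →
      v' + X' ≤ v → v ≤ a * (J / N) →
      MI (Qa F A) (nud F i₁ N ρ K q d R a v X')
        (fun ω => (yx F i₁ N a v X' ω, cdg F i₁ N K q d R a v X' ω))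
        (fun ω => (cx F i₁ N q d R a v ω, F.W ω)) ≤
        CH (Qa F A) (nud F i₁ N ρ K q d R a v X') (fun ω => (cx F i₁ N q d R a v ω, F.W ω)) -
        CH (Qa F A) (nud F i₁ N ρ K q d R a' v' X')
          (fun ω => (cx F i₁ N q d R a' v' ω, F.W ω)) +
        (k * (X' : ℝ) * Real.log 2 - CH (Qa F A) (yx F i₁ N a' v' X')
          (fun ω => (cx F i₁ N q d R a' v' ω, (st F i₁ N ρ q d (p a' a') a' ω, F.W ω)))) +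
        ε₂ * ((((a' - a) + x) * (J / N) : ℕ) : ℝ))) :
    Clg S (fun J F A => Ch F i₁ ⌊h₁ * J⌋₊ A → Pls F c N ρ A → ∀ d : Dts F,
      d.OK i₁ N ρ K (pT F i₁ N ρ K A) A → FH2 F i₁ N ρ K q x L B c ε₂ A d) := by
  refine Clg.mono (J₂ := 0) (all5 (S := S) N (fun R a w a' w' => w' ≤ w ∧ w ≤ a ∧ a ≤ a' ∧
      a' ≤ R + 3 ∧ a' ≤ ρ ∧ a' + 3 + x ≤ w' + q ∧ R + B * L ≤ ρ) _
    fun R a w a' w' h' => h R a w a' w' h'.1 h'.2.1 h'.2.2.1 h'.2.2.2.1 h'.2.2.2.2.1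
      h'.2.2.2.2.2.1 h'.2.2.2.2.2.2) ?_
  intro J _ F A G hCh hPl d hd R hR a ha w hw a' ha' w' hw' h1 h2 h3 h4 h5 h6 h7 hG hg hRp
    hRp' v v' X' hX' hv1 hv2 hv3 hv4
  exact G R hR a ha w hw a' ha' w' hw' ⟨h1, h2, h3, h4, h5, h6, h7⟩ hCh hPl hG _ d hd hg hRp
    hRp' v v' X' hX' hv1 hv2 hv3 hv4

theorem vis_clg {η C₂ : ℝ} (N : ℕ) (i₁ : Fin (k + 1)) (ρ q L : ℕ)
    (h : ∀ (R a w : ℕ), w ≤ a → a ≤ R + 3 → a ≤ ρ → a + 3 ≤ w + q → L ≤ R → R + L ≤ ρ →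
    Clg S (fun J F A => Ch F i₁ ⌊h₁ * J⌋₊ A → Pls F c N ρ A → Zr F c N (R - L) R A →
      ∀ (p : ℕ → ℕ → ℕ) (d : Dts F), d.OK i₁ N ρ K p A → Gap p R L a → R ≤ p a w →
      ∀ v : ℕ, w * (J / N) ≤ v → v ≤ a * (J / N) →
      CH (Qa F A) (cx F i₁ N q d R a v)
        (fun ω => (st F i₁ N ρ q d (p a a) a ω, F.W ω)) ≤
        (C₂ * L + η * N) * ((J / N : ℕ) : ℝ))) :
    Clg S (fun J F A => Ch F i₁ ⌊h₁ * J⌋₊ A → Pls F c N ρ A → ∀ d : Dts F,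
      d.OK i₁ N ρ K (pT F i₁ N ρ K A) A →
      FVis F i₁ N ρ K q L c ((C₂ * L + η * N) * ((J / N : ℕ) : ℝ)) A d) := by
  refine Clg.mono (J₂ := 0) (all3 (S := S) N (fun R a w => w ≤ a ∧ a ≤ R + 3 ∧ a ≤ ρ ∧
      a + 3 ≤ w + q ∧ L ≤ R ∧ R + L ≤ ρ) _
    fun R a w h' => h R a w h'.1 h'.2.1 h'.2.2.1 h'.2.2.2.1 h'.2.2.2.2.1 h'.2.2.2.2.2) ?_
  intro J _ F A G hCh hPl d hd R hR a ha w hw h1 h2 h3 h4 h5 h6 hZ hg hRp v hv1 hv2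
  exact G R hR a ha w hw ⟨h1, h2, h3, h4, h5, h6⟩ hCh hPl hZ _ d hd hg hRp v hv1 hv2

theorem fin_clg {C₁ : ℝ} (hFIN : FIN S) (hc : 0 < c) (hh : 0 < h₁) (hX : 0 < X) (hK : 1 ≤ K)
    (N : ℕ) (i₁ : Fin (k + 1)) (ρ q L : ℕ) (hL : 2 * K + 8 ≤ L) (hρ : (ρ : ℝ) + X * N ≤ N) :
    Clg S (fun J F A => Ch F i₁ ⌊h₁ * J⌋₊ A → Pls F c N ρ A → ∀ d : Dts F,
      d.OK i₁ N ρ K (pT F i₁ N ρ K A) A → FFin F i₁ N ρ K q L C₁ A d) := by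
  refine Clg.mono (J₂ := 0) (all3 (S := S) N (fun R a w => w ≤ a ∧ a ≤ R + 3 ∧ a + L ≤ ρ ∧
      a + 3 + (K + 1) * L ≤ w + q ∧ 1 ≤ R ∧ R + (K + 1) * L ≤ ρ) _
    fun R a w h => hFIN c h₁ X K C₁ hc hh hX hK N i₁ ρ R q a w L ((K + 1) * L) h.1 h.2.1
      h.2.2.1 h.2.2.2.1 hL le_rfl h.2.2.2.2.1 h.2.2.2.2.2 hρ) ?_
  intro J _ F A G hCh hPl d hd R hR a ha w hw h1 h2 h3 h4 h5 h6 hRp hRp' v hv1 hv2 hv3
  exact G R hR a ha w hw ⟨h1, h2, h3, h4, h5, h6⟩ hCh hPl _ d hd hRp hRp' v hv1 hv2 hv3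

/-- The facts together. -/
theorem fct_of {J : ℕ} {F : Fam (k + 1) J} {i₁ : Fin (k + 1)} {N ρ q x L B : ℕ}
    {ι κ π₀ ε₂ C₁ CY EV e₁ DM : ℝ} {A : F.Ω → Prop} {a b : Prop} (hab : a ∧ b)
    (h1 : IsLaw (Qa F A) ∧
      (J : ℝ) * Real.log 2 - e₁ ≤ CH (Qa F A) F.T (fun ω => (F.l ω, F.Z ω)))
    (h2 : a → b → ∃ d : Dts F, d.OK i₁ N ρ K (pT F i₁ N ρ K A) A)
    (h3 : a → b → ∀ d : Dts F, d.OK i₁ N ρ K (pT F i₁ N ρ K A) A →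
      FLin F i₁ N ρ K q ι A d)
    (h4 : a → b → ∀ d : Dts F, d.OK i₁ N ρ K (pT F i₁ N ρ K A) A →
      FMkf F i₁ N ρ K q x DM A d)
    (h5 : a → b → ∀ d : Dts F, d.OK i₁ N ρ K (pT F i₁ N ρ K A) A →
      FShd F i₁ N ρ K q x L B c ι A d)
    (h6 : a → b → ∀ d : Dts F, d.OK i₁ N ρ K (pT F i₁ N ρ K A) A →
      FH5 F i₁ N ρ K q x L B c κ π₀ A d)
    (h7 : a → b → ∀ d : Dts F, d.OK i₁ N ρ K (pT F i₁ N ρ K A) A →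
      FH2 F i₁ N ρ K q x L B c ε₂ A d)
    (h8 : a → b → ∀ d : Dts F, d.OK i₁ N ρ K (pT F i₁ N ρ K A) A →
      FVis F i₁ N ρ K q L c EV A d)
    (h9 : a → b → ∀ d : Dts F, d.OK i₁ N ρ K (pT F i₁ N ρ K A) A →
      FFin F i₁ N ρ K q L C₁ A d)
    (h10 : ∀ d : Dts F, IsLaw (Qa F A) → FYdg F i₁ N q x CY A d) :
    ∃ d : Dts F, Fct F i₁ N ρ K q x L B c ι κ π₀ ε₂ C₁ CY EV e₁ DM A d := by
  obtain ⟨ha, hb⟩ := hab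
  obtain ⟨d, hd⟩ := h2 ha hb
  exact ⟨d, ⟨h1.1, h1.2, hd, h3 ha hb d hd, h4 ha hb d hd, h10 d h1.1, h5 ha hb d hd,
    h6 ha hb d hd, h7 ha hb d hd, h8 ha hb d hd, h9 ha hb d hd⟩⟩

end Pool.SLF
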