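import Pool.Agent.H71.SLP.Pair2

/-!
# The slope law on families: the number of exceptional pairs, for one family
-/

set_option autoImplicit false

namespace Pool.SLF

open Finset Real MvPolynomial
open Pool.Agent.H49.Ent Pool.Agent.H32.Dense Pool.STK Pool.KA Pool.KSAT Pool.K2S Pool.PB
open Pool.KAF
open Pool.KVA (MI)

variable {k J : ℕ}

/-- `a` is a radius for the failure at `(R, w)`. -/
def BadAt (F : Fam (k + 1) J) (i₁ : Fin (k + 1)) (N K ρ Q : ℕ) (γ : ℝ) (s : ℕ)
    (A : F.Ω → Prop) (R w a : ℕ) : Prop :=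
  w ≤ a ∧ N ≤ 2 * Q * (a - w) ∧ Q * (a - w) ≤ N ∧ a + s ≤ ρ ∧
    R + 1 ≤ thrT F i₁ N ρ K A a w ∧ (∀ a' < a, w ≤ a' → thrT F i₁ N ρ K A a' w ≤ R) ∧
    R + γ * N ≤ thrT F i₁ N ρ K A a a ∧
    thrT F i₁ N ρ K A (a + s) (w + s) < R + 1 + K * s

theorem bad_iff (F : Fam (k + 1) J) (i₁ : Fin (k + 1)) (N K ρ Q : ℕ) (γ : ℝ) (s : ℕ)
    (A : F.Ω → Prop) (R w : ℕ) : Bad F i₁ N K ρ Q γ s A R w ↔
      ∃ a, BadAt F i₁ N K ρ Q γ s A R w a := Iff.rfl

section

variable {F : Fam (k + 1) J} {i₁ : Fin (k + 1)} {N ρ K q x L B Q : ℕ}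
  {c κ₂ ι κ π₀ ε₀ ε₂ C₁ CY EV e₁ DM γ : ℝ} {j₀ X₀ : ℕ} {A : F.Ω → Prop} {d : Dts F}

/-- The first radius is monotone. -/
theorem bad_mono (hρ : ρ ≤ N) {R w a w' a' s : ℕ} (h : BadAt F i₁ N K ρ Q γ s A R w a)
    (h' : BadAt F i₁ N K ρ Q γ s A R w' a') (hw : w' ≤ w) : a ≤ a' := by
  obtain ⟨h1, h2, h3, h4, h5, h6, h7, h8⟩ := h
  obtain ⟨g1, g2, g3, g4, g5, g6, g7, g8⟩ := h'
  by_contra hcon
  have hlt : a' < a := by omega
  have haw : w < a := by
    rcases Nat.lt_or_ge w a with h | h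
    · exact h
    · rw [Nat.sub_eq_zero_of_le h] at h2
      omega
  have k1 := h6 (max a' w) (by omega) (by omega)
  have k2 : thrT F i₁ N ρ K A a' w' ≤ thrT F i₁ N ρ K A (max a' w) w :=
    thrT_mono (le_max_left _ _) hw (by omega)
  omega

/-- **The number of exceptional pairs.** -/
theorem count (hC : CoreC k K (C0 k K) (c / 2) (1 / 8) κ₂ κ π₀ ι ε₀ C₁ j₀ X₀)
    (fc : Fct F i₁ N ρ K q x L B c ι κ π₀ ε₂ C₁ CY EV e₁ DM A d)
    (P : Par J N ρ K q x L B Q κ₂ ι ε₀ e₁ j₀ X₀)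
    (hlip : ∀ a w, thrT F i₁ N ρ K A (a + 1) w ≤ thrT F i₁ N ρ K A a w + K + 1)
    (hγ : 0 < γ) (hγN : 2 * ((B * L : ℕ) : ℝ) + 2 < γ * N) {t : ℝ} (ht0 : 0 < t)
    (ht1 : t + CY + EV ≤ ι * ((x * (J / N) : ℕ) : ℝ) * Real.log 2)
    (ht2 : t + CY + EV + ε₂ * ((x * (J / N) : ℕ) : ℝ) ≤ ι / 2 * ((x * (J / N) : ℕ) : ℝ))
    (hι : 0 < ι) (hε₂ : 0 ≤ ε₂) (hDM : 0 ≤ DM) (S : Finset (ℕ × ℕ))
    (hS : ∀ z ∈ S, z.1 ≤ N ∧ z.2 ≤ N ∧ z.1 + B * L ≤ ρ ∧ GC F c N L B z.1 A ∧
      Bad F i₁ N K ρ Q γ L A z.1 z.2) :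
    (S.card : ℝ) ≤ (K + 1) * (((N / Q : ℕ) : ℝ) + 1) *
      (((B * L : ℕ) : ℝ) * (1 + 2 / γ) + x * (DM / t)) + ((N + 1 : ℕ) : ℝ) *
      ((x + 1 : ℕ) * ((((x * (J / N) : ℕ) : ℝ) * Real.log 2 + Real.log (2 * C0 k K + 5) +
        ε₂ * ((J / N : ℕ) : ℝ) * ((N / Q : ℕ) : ℝ)) / (ι / 2 * ((x * (J / N) : ℕ) : ℝ)) + 1)) := by
  classical
  have hN := P.hN
  have hNr : (0 : ℝ) < N := by exact_mod_cast hN
  have hu := u_pos P
  have hρ := P.hρ
  have hxu : J / N ≤ x * (J / N) := Nat.le_mul_of_pos_left _ P.hx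
  have hX : (0 : ℝ) < ((x * (J / N) : ℕ) : ℝ) := by
    have : 0 < x * (J / N) := by omega
    exact_mod_cast this
  -- the radii
  have hex : ∀ R w, ∃ a, (R, w) ∈ S → BadAt F i₁ N K ρ Q γ L A R w a := by
    intro R w
    by_cases h : (R, w) ∈ S
    · obtain ⟨a, ha⟩ := (bad_iff _ _ _ _ _ _ _ _ _ _ _).1 (hS _ h).2.2.2.2
      exact ⟨a, fun _ => ha⟩
    · exact ⟨0, fun h' => absurd h' h⟩
  choose a ha using hex
  -- the windows
  have hvx : ∀ w, ∃ v : ℕ, w + 2 ≤ N → w * (J / N) ≤ v ∧ v < (w + 1) * (J / N) ∧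
      (j₀ : ℝ) * Real.log 2 - ε₀ ≤
        CH (Qa F A) (fun ω => ⌊(2 : ℝ) ^ j₀ * F.tw v ω⌋) (slam F v) := by
    intro w
    by_cases h : w + 2 ≤ N
    · obtain ⟨v, hv⟩ := alive_win fc P h
      exact ⟨v, fun _ => hv⟩
    · exact ⟨0, fun h' => absurd h' h⟩
  choose v hv using hvx
  have hwa : ∀ R w, (R, w) ∈ S → w < a R w := by
    intro R w h
    obtain ⟨h1, h2, -⟩ := ha R w h
    rcases Nat.lt_or_ge w (a R w) with h' | h'
    · exact h'
    · rw [Nat.sub_eq_zero_of_le h'] at h2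
      omega
  have haq : ∀ R w, (R, w) ∈ S → a R w ≤ w + N / Q := by
    intro R w h
    obtain ⟨h1, h2, h3, -⟩ := ha R w h
    have h4 : a R w - w ≤ N / Q := (Nat.le_div_iff_mul_le P.hQ).2 (by
      rw [mul_comm]
      exact h3)
    omega
  -- the exceptional radii
  set g : ℕ → ℝ := fun a => (thrT F i₁ N ρ K A (min a N) (min a N) : ℝ) with hg
  have hgm : Monotone g := by
    intro a b hab
    rw [hg]
    simp only
    exact_mod_cast thrT_mono (min_le_min_right N hab) (min_le_min_right N hab) (min_le_right _ _)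
  have hg0 : ∀ a, 0 ≤ g a := fun a => Nat.cast_nonneg _
  have hgN : ∀ a, g a ≤ N := fun a => by
    have h : thrT F i₁ N ρ K A (min a N) (min a N) ≤ N := (thrT_le _ _).trans hρ
    change ((thrT F i₁ N ρ K A (min a N) (min a N) : ℕ) : ℝ) ≤ N
    exact_mod_cast h
  set E₁ := (range (N + 1)).filter (fun a => a < B * L) with hE₁
  set E₂ := (range (N + 1)).filter (fun a => γ * N / 2 ≤ g a - g (a - B * L)) with hE₂
  set E₃ := (range (N + 1)).filter (fun a => a + x + 2 ≤ ρ ∧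
    t ≤ dft F i₁ N ρ q x d (pT F i₁ N ρ K A) A (a % x) (a / x)) with hE₃
  have c1 : (E₁.card : ℝ) ≤ ((B * L : ℕ) : ℝ) := by
    have : E₁ ⊆ range (B * L) := fun a ha => Finset.mem_range.2 (Finset.mem_filter.1 ha).2
    have h1 := Finset.card_le_card this
    rw [Finset.card_range] at h1
    exact_mod_cast h1
  have c2 : (E₂.card : ℝ) ≤ ((B * L : ℕ) : ℝ) * (2 / γ) := by
    have h1 := Pool.M5.Gaps.card_bwd hgm hg0 hgN (N + 1) (B * L) (γ * N / 2)
    have h2 : 0 < γ * N / 2 := by positivity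
    have h3 : (E₂.card : ℝ) ≤ ((B * L : ℕ) : ℝ) * N / (γ * N / 2) := by
      rw [le_div_iff₀ h2]
      convert h1 using 3
    refine h3.trans (le_of_eq ?_)
    field_simp
  have c3 : (E₃.card : ℝ) ≤ x * (DM / t) := by
    have h1 := Comb.leaky_card x ρ P.hx (dft F i₁ N ρ q x d (pT F i₁ N ρ K A) A) t DM ht0 hDM
      (fun a₀ _ j _ => dft_nonneg fc.law a₀ j) (fun a₀ h n hn => by
        refine fc.mkf a₀ h n ?_ hn
        have : n ≤ n * x := Nat.le_mul_of_pos_right n P.hx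
        omega) (N + 1)
    convert h1 using 3
  have cS : ((E₁ ∪ E₂ ∪ E₃).card : ℝ) ≤ ((B * L : ℕ) : ℝ) * (1 + 2 / γ) + x * (DM / t) := by
    have h1 := (Finset.card_union_le (E₁ ∪ E₂) E₃).trans
      (Nat.add_le_add_right (Finset.card_union_le E₁ E₂) _)
    have h2 : ((E₁ ∪ E₂ ∪ E₃).card : ℝ) ≤ E₁.card + E₂.card + E₃.card := by exact_mod_cast h1
    linarith
  -- pairs which are not exceptional
  have hgp : ∀ R w, (R, w) ∈ S → a R w ∉ E₁ ∪ E₂ ∪ E₃ →
      Gp F i₁ N ρ K L B Q c A R w (a R w) ∧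
        dft F i₁ N ρ q x d (pT F i₁ N ρ K A) A (a R w % x) (a R w / x) ≤ t := by
    intro R w h hn
    obtain ⟨s1, s2, s3, s4, -⟩ := hS _ h
    simp only at s1 s2 s3 s4
    obtain ⟨h1, h2, h3, h4, h5, h6, h7, h8⟩ := ha R w h
    have hwa' := hwa R w h
    rw [Finset.mem_union, Finset.mem_union, not_or, not_or] at hn
    obtain ⟨⟨n1, n2⟩, n3⟩ := hn
    have haN : a R w < N + 1 := by omega
    have m1 : B * L ≤ a R w := by
      by_contra hcon
      exact n1 (Finset.mem_filter.2 ⟨Finset.mem_range.2 haN, by omega⟩)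
    have m2 : g (a R w) - g (a R w - B * L) < γ * N / 2 := by
      by_contra hcon
      exact n2 (Finset.mem_filter.2 ⟨Finset.mem_range.2 haN, not_lt.1 hcon⟩)
    have haR : a R w ≤ R + 2 := by
      by_contra hcon
      have k1 := h6 (a R w - 1) (by omega) (by omega)
      have k2 : a R w - 2 ≤ thrT F i₁ N ρ K A (a R w - 1) w := by
        refine le_thrT (by omega) (trv_thm k K J F i₁ _ _ _ _ A P.hK ?_ ?_ ?_)
        · have : (a R w - 2 + 1) * (J / N) ≤ (a R w - 1) * (J / N) :=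
            Nat.mul_le_mul_right _ (by omega)
          have e : (a R w - 2 + 1) * (J / N) = (a R w - 2) * (J / N) + J / N := by ring
          omega
        · have : (a R w - 2 + 1) * (J / N) ≤ ρ * (J / N) :=
            Nat.mul_le_mul_right _ (by omega)
          have e : (a R w - 2 + 1) * (J / N) = (a R w - 2) * (J / N) + J / N := by ring
          omega
        · exact (Nat.mul_le_mul_right _ s2).trans (Nat.mul_div_le J N)
      omega
    have hgap : Gap (pT F i₁ N ρ K A) R (B * L) (a R w) := by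
      refine ⟨m1, ?_⟩
      have e1 : g (a R w) = (thrT F i₁ N ρ K A (a R w) (a R w) : ℝ) := by
        rw [hg]
        simp only
        rw [min_eq_left (by omega : a R w ≤ N)]
      have e2 : g (a R w - B * L) =
          (thrT F i₁ N ρ K A (a R w - B * L) (a R w - B * L) : ℝ) := by
        rw [hg]
        simp only
        rw [min_eq_left (by omega : a R w - B * L ≤ N)]
      have k1 : (R : ℝ) + ((B * L : ℕ) : ℝ) + 1 <
          (thrT F i₁ N ρ K A (a R w - B * L) (a R w - B * L) : ℝ) := by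
        rw [← e2]
        rw [← e1] at h7
        linarith
      have k2 : R + B * L + 1 < thrT F i₁ N ρ K A (a R w - B * L) (a R w - B * L) := by
        exact_mod_cast k1
      change R + B * L ≤ thrT F i₁ N ρ K A (a R w - B * L) (a R w - B * L) - 1
      omega
    have hxB := P.hxB
    refine ⟨⟨hwa', haR, h4, s3, s4, h3, ?_, hgap⟩, ?_⟩
    · change R ≤ thrT F i₁ N ρ K A (a R w) w - 1
      omega
    · by_contra hcon
      exact n3 (Finset.mem_filter.2 ⟨Finset.mem_range.2 haN, by omega, (not_le.1 hcon).le⟩)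
  -- counting
  have hcnt := Comb.pairs_card (T := fun a w p => p ≤ thrT F i₁ N ρ K A a w) (K := K)
    (fun a w p p' h h' => h'.trans h) (fun a w p h => by
      have := hlip a w
      omega) (N + 1) 1 (N / Q) le_rfl (E₁ ∪ E₂ ∪ E₃) S a
    ((x + 1 : ℕ) * ((((x * (J / N) : ℕ) : ℝ) * Real.log 2 + Real.log (2 * C0 k K + 5) +
        ε₂ * ((J / N : ℕ) : ℝ) * ((N / Q : ℕ) : ℝ)) / (ι / 2 * ((x * (J / N) : ℕ) : ℝ)) + 1))
    (by
      rintro ⟨R, w⟩ h
      obtain ⟨s1, s2, -⟩ := hS _ h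
      simp only at s1 s2
      rw [Finset.mem_product, Finset.mem_range, Finset.mem_range]
      exact ⟨by omega, by omega⟩) (by
      rintro ⟨R, w⟩ h
      have h1 := hwa R w h
      have h2 := ha R w h
      obtain ⟨g1, g2, g3, g4, g5, g6, g7, g8⟩ := h2
      refine ⟨⟨g5, Or.inr ?_⟩, h1, haq R w h⟩
      have := g6 (a R w - 1) (by omega) (by omega)
      change ¬ (R + 1 ≤ thrT F i₁ N ρ K A (a R w - 1) w)
      omega) (by
      intro R _ Z hZ
      refine Comb.row_card (x + 1) (by omega) Z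
        (fun w => pot F i₁ N ρ K q x d A R (a R w) (v w) - ε₂ * ((J / N : ℕ) : ℝ) * a R w)
        (ι / 2 * ((x * (J / N) : ℕ) : ℝ)) _ (by positivity) ?_ ?_ ?_
      · have hC0 := one_le_C0 k K
        have h2 : 0 ≤ Real.log (2 * C0 k K + 5) := Real.log_nonneg (by linarith)
        positivity
      · -- the chain
        intro w' hw' w hw hlt
        obtain ⟨z1, z2⟩ := hZ w hw
        obtain ⟨z1', z2'⟩ := hZ w' hw'
        obtain ⟨gp, hd⟩ := hgp R w z1 z2
        obtain ⟨gp', hd'⟩ := hgp R w' z1' z2'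
        have hb := gp.bd P
        have hb' := gp'.bd P
        obtain ⟨v1, v2, v3⟩ := hv w (by have := hb.2.2.2.2.2.2.2.2.2.2; omega)
        obtain ⟨v1', v2', v3'⟩ := hv w' (by have := hb'.2.2.2.2.2.2.2.2.2.2; omega)
        have hba := ha R w z1
        have hba' := ha R w' z1'
        refine chain_step fc P gp gp' hlt (bad_mono hρ hba hba' (by omega)) v1 v2 v1' v2'
          hd' ht2 ?_
        by_contra hcon
        have hTb := pair_core hC fc P gp v1 v2 v3 hd ht1 (not_lt.1 hcon)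
        have k1 : R + 1 + K * L ≤ thrT F i₁ N ρ K A (a R w + L) (w + L) := by
          refine le_thrT ?_ hTb
          have h1 := P.hKB
          have h2 := gp.Rρ
          have h3 := P.hL
          have e : (K + 2) * L = K * L + L + L := by ring
          omega
        have k2 := hba.2.2.2.2.2.2.2
        omega
      · intro w' hw' w hw
        obtain ⟨z1, z2⟩ := hZ w hw
        obtain ⟨z1', z2'⟩ := hZ w' hw'
        obtain ⟨gp, hd⟩ := hgp R w z1 z2
        obtain ⟨gp', hd'⟩ := hgp R w' z1' z2'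
        have hb := gp.bd P
        obtain ⟨v1, v2, v3⟩ := hv w (by have := hb.2.2.2.2.2.2.2.2.2.2; omega)
        have hba := ha R w z1
        have hba' := ha R w' z1'
        obtain ⟨b1, b2, b3, b4, b5, b6, b7, b8, b9, b10, b11⟩ := hb
        have hq := gp.hq P
        have hw1 : (w + 1) * (J / N) ≤ a R w * (J / N) := Nat.mul_le_mul_right _ gp.wa
        have haJ : a R w * (J / N) ≤ J :=
          (Nat.mul_le_mul_right _ b2).trans (Nat.mul_div_le J N)
        have k1 : pot F i₁ N ρ K q x d A R (a R w) (v w) ≤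
            ((x * (J / N) : ℕ) : ℝ) * Real.log 2 + Real.log (2 * C0 k K + 5) := by
          refine nud_ent fc.law fc.ok hu b4 gp.wa.le gp.Rp v1 (v2.le.trans hw1)
            ((v2.le.trans hw1).trans haJ) ?_ (Qa_sup F A) _ _
          have : (a R w + 2) * (J / N) ≤ (w + q) * (J / N) :=
            Nat.mul_le_mul_right _ (by omega)
          have e : (w + q) * (J / N) = q * (J / N) + w * (J / N) := by ring
          omega
        have k2 : 0 ≤ pot F i₁ N ρ K q x d A R (a R w') (v w') := CH_nonneg fc.law.nonneg _ _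
        have k3 : (a R w' : ℝ) ≤ a R w + ((N / Q : ℕ) : ℝ) := by
          have : a R w' ≤ a R w + N / Q := by
            rcases Nat.le_total w' w with h | h
            · have := haq R w' z1'
              have := gp.wa
              omega
            · exact (bad_mono hρ hba' hba h).trans (Nat.le_add_right _ _)
          exact_mod_cast this
        have hu0 : (0 : ℝ) ≤ ε₂ * ((J / N : ℕ) : ℝ) := by positivity
        have k4 := mul_le_mul_of_nonneg_left k3 hu0
        linarith)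
  refine hcnt.trans ?_
  refine add_le_add (mul_le_mul_of_nonneg_left cS (by positivity)) (le_of_eq ?_)
  rfl

end

end Pool.SLF
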