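import Pool.Agent.H20.SLP.Cnt
import Pool.Agent.H36.M5.Gaps

/-!
# The slope law on families: counting
-/

set_option autoImplicit false

namespace Pool.SLF.Comb

open Finset

/-- A chain of windows with growing potentials. -/
theorem chain_aux (g : ℕ → ℝ) (I : ℝ) (s : Finset ℕ) :
    (∀ w' ∈ s, ∀ w ∈ s, w' < w → I ≤ g w - g w') → s.Nonempty →
    ∃ w₀ ∈ s, ∃ w₁ ∈ s, (∀ x ∈ s, x ≤ w₁) ∧ ((s.card : ℝ) - 1) * I ≤ g w₁ - g w₀ := by
  classical
  induction s using Finset.induction_on_max with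
  | empty => intro _ h; exact absurd h (by simp)
  | insert a s ha ih =>
    intro h _
    have hna : a ∉ s := fun h => lt_irrefl _ (ha a h)
    rcases s.eq_empty_or_nonempty with h0 | h0
    · subst h0
      refine ⟨a, by simp, a, by simp, by simp, by simp⟩
    · obtain ⟨w₀, hw0, w₁, hw1, hmax, hc⟩ := ih (fun w' hw' w hw => h w'
        (Finset.mem_insert_of_mem hw') w (Finset.mem_insert_of_mem hw)) h0
      refine ⟨w₀, Finset.mem_insert_of_mem hw0, a, Finset.mem_insert_self _ _, ?_, ?_⟩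
      · intro x hx
        rcases Finset.mem_insert.1 hx with rfl | hx
        · exact le_rfl
        · exact (ha x hx).le
      · rw [Finset.card_insert_of_notMem hna]
        have h1 := h w₁ (Finset.mem_insert_of_mem hw1) a (Finset.mem_insert_self _ _) (ha w₁ hw1)
        push_cast
        linarith

theorem chain_card (s : Finset ℕ) (g : ℕ → ℝ) (I D : ℝ) (hI : 0 ≤ I) (hD : 0 ≤ D)
    (h1 : ∀ w' ∈ s, ∀ w ∈ s, w' < w → I ≤ g w - g w')
    (h2 : ∀ w' ∈ s, ∀ w ∈ s, g w - g w' ≤ D) : (s.card : ℝ) * I ≤ D + I := by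
  rcases s.eq_empty_or_nonempty with h0 | h0
  · rw [h0]
    simp only [Finset.card_empty, Nat.cast_zero, zero_mul]
    linarith
  · obtain ⟨w₀, hw0, w₁, hw1, -, hc⟩ := chain_aux g I s h1 h0
    have := h2 w₀ hw0 w₁ hw1
    linarith

/-- Residue classes. -/
theorem class_card (y : ℕ) (hy : 0 < y) (Z : Finset ℕ) (b : ℝ)
    (h : ∀ r < y, ((Z.filter (fun w => w % y = r)).card : ℝ) ≤ b) : (Z.card : ℝ) ≤ y * b := by
  classical
  have h1 : Z.card = ∑ r ∈ range y, (Z.filter (fun w => w % y = r)).card :=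
    Finset.card_eq_sum_card_fiberwise (fun w _ => by
      simpa using Nat.mod_lt w hy)
  rw [h1]
  push_cast
  refine (Finset.sum_le_sum fun r hr => h r (Finset.mem_range.1 hr)).trans ?_
  rw [Finset.sum_const, Finset.card_range, nsmul_eq_mul]

/-- The windows of one row. -/
theorem row_card (y : ℕ) (hy : 0 < y) (Z : Finset ℕ) (g : ℕ → ℝ) (I D : ℝ) (hI : 0 < I)
    (hD : 0 ≤ D) (h1 : ∀ w' ∈ Z, ∀ w ∈ Z, w' + y ≤ w → I ≤ g w - g w')
    (h2 : ∀ w' ∈ Z, ∀ w ∈ Z, g w - g w' ≤ D) : (Z.card : ℝ) ≤ y * (D / I + 1) := by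
  refine class_card y hy Z _ fun r _ => ?_
  have h3 : (((Z.filter (fun w => w % y = r)).card : ℝ)) * I ≤ D + I := by
    refine chain_card _ g I D hI.le hD ?_ ?_
    · intro w' hw' w hw hlt
      obtain ⟨a1, a2⟩ := Finset.mem_filter.1 hw'
      obtain ⟨b1, b2⟩ := Finset.mem_filter.1 hw
      refine h1 w' a1 w b1 ?_
      have e1 := Nat.div_add_mod w y
      have e2 := Nat.div_add_mod w' y
      have h4 : w' / y < w / y := by
        by_contra hcon
        have : y * (w / y) ≤ y * (w' / y) := Nat.mul_le_mul_left _ (by omega)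
        omega
      have h5 : y * (w' / y) + y ≤ y * (w / y) := by
        calc y * (w' / y) + y = y * (w' / y + 1) := by ring
          _ ≤ y * (w / y) := Nat.mul_le_mul_left _ h4
      omega
    · intro w' hw' w hw
      exact h2 w' (Finset.mem_filter.1 hw').1 w (Finset.mem_filter.1 hw).1
  have h4 : D / I + 1 = (D + I) / I := by field_simp
  rw [h4, le_div_iff₀ hI]
  exact h3

/-- The leaky radii. -/
theorem leaky_card (x ρ : ℕ) (hx : 0 < x) (D : ℕ → ℕ → ℝ) (t M : ℝ) (ht : 0 < t) (hM : 0 ≤ M)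
    (hD : ∀ a₀ < x, ∀ j, a₀ + (j + 1) * x + 2 ≤ ρ → 0 ≤ D a₀ j)
    (h : ∀ a₀ < x, ∀ n, a₀ + n * x + 2 ≤ ρ → ∑ j ∈ range n, D a₀ j ≤ M) (n : ℕ) :
    (((range n).filter (fun a => a + x + 2 ≤ ρ ∧ t ≤ D (a % x) (a / x))).card : ℝ) ≤
      x * (M / t) := by
  classical
  refine class_card x hx _ _ fun r hr => ?_
  rw [le_div_iff₀ ht]
  by_cases hrρ : r + 2 ≤ ρ
  swap
  · have h0 : ((range n).filter (fun a => a + x + 2 ≤ ρ ∧ t ≤ D (a % x) (a / x))).filter
        (fun w => w % x = r) = ∅ := by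
      rw [Finset.eq_empty_iff_forall_notMem]
      intro a ha
      obtain ⟨h1, h2⟩ := Finset.mem_filter.1 ha
      have h3 := (Finset.mem_filter.1 h1).2.1
      have := Nat.mod_le a x
      omega
    rw [h0]
    simpa using hM
  set m := (ρ - 2 - r) / x with hm
  have hmx : r + m * x + 2 ≤ ρ := by
    have h0 : m * x ≤ ρ - 2 - r := Nat.div_mul_le_self (ρ - 2 - r) x
    omega
  have h1 : ((range n).filter (fun a => a + x + 2 ≤ ρ ∧ t ≤ D (a % x) (a / x))).filter
      (fun w => w % x = r) ⊆ ((range m).filter (fun j => t ≤ D r j)).image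
        (fun j => r + j * x) := by
    intro a ha
    obtain ⟨h1, h2⟩ := Finset.mem_filter.1 ha
    obtain ⟨-, h3, h4⟩ := Finset.mem_filter.1 h1
    have e := Nat.div_add_mod a x
    rw [Finset.mem_image]
    refine ⟨a / x, ?_, ?_⟩
    · rw [Finset.mem_filter, Finset.mem_range]
      refine ⟨?_, by rw [h2] at h4; exact h4⟩
      have h5 : (a / x + 1) * x ≤ ρ - 2 - r := by
        have : (a / x + 1) * x = x * (a / x) + x := by ring
        omega
      have := (Nat.le_div_iff_mul_le hx).2 h5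
      omega
    · rw [mul_comm] at e
      omega
  have h2 : ((((range n).filter (fun a => a + x + 2 ≤ ρ ∧ t ≤ D (a % x) (a / x))).filter
      (fun w => w % x = r)).card : ℝ) ≤ ((range m).filter (fun j => t ≤ D r j)).card := by
    exact_mod_cast (Finset.card_le_card h1).trans Finset.card_image_le
  have h3 : (((range m).filter (fun j => t ≤ D r j)).card : ℝ) * t ≤ M := by
    refine le_trans ?_ (h r hr m hmx)
    rw [← nsmul_eq_mul, ← Finset.sum_const]
    refine (Finset.sum_le_sum (g := fun j => D r j) fun j hj =>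
      (Finset.mem_filter.1 hj).2).trans ?_
    refine Finset.sum_le_sum_of_subset_of_nonneg (Finset.filter_subset _ _) fun j hj _ => ?_
    refine hD r hr j ?_
    have : (j + 1) * x ≤ m * x := Nat.mul_le_mul_right _ (Finset.mem_range.1 hj)
    omega
  calc _ ≤ (((range m).filter (fun j => t ≤ D r j)).card : ℝ) * t :=
        mul_le_mul_of_nonneg_right h2 ht.le
    _ ≤ M := h3

/-- **The pairs.** -/
theorem pairs_card {T : ℕ → ℕ → ℕ → Prop} {K : ℕ}
    (hp : ∀ a w p p', T a w p → p' ≤ p → T a w p')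
    (hK : ∀ a w p, T (a + 1) w (p + K + 1) → T a w p) (n z₁ z₂ : ℕ) (hz : 1 ≤ z₁)
    (S : Finset ℕ) (P : Finset (ℕ × ℕ)) (a : ℕ → ℕ → ℕ) (b : ℝ) (hP : P ⊆ range n ×ˢ range n)
    (hFr : ∀ z ∈ P, CNT20.Fr T z.1 z.2 (a z.1 z.2) ∧ z.2 + z₁ ≤ a z.1 z.2 ∧
      a z.1 z.2 ≤ z.2 + z₂)
    (hrow : ∀ R < n, ∀ Z : Finset ℕ, (∀ w ∈ Z, (R, w) ∈ P ∧ a R w ∉ S) → (Z.card : ℝ) ≤ b) :
    (P.card : ℝ) ≤ (K + 1) * (z₂ + 1) * S.card + n * b := by
  classical
  have h1 := CNT20.bad_radii hp hK n z₁ z₂ hz S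
  set E := ((range n) ×ˢ (range n)).filter (fun x : ℕ × ℕ =>
      ∃ a ∈ S, CNT20.Fr T x.1 x.2 a ∧ x.2 + z₁ ≤ a ∧ a ≤ x.2 + z₂) with hE
  have h2 : P ⊆ E ∪ (range n).biUnion (fun R => ((range n).filter
      (fun w => (R, w) ∈ P ∧ a R w ∉ S)).image (fun w => (R, w))) := by
    rintro ⟨R, w⟩ hz
    have h3 := Finset.mem_product.1 (hP hz)
    by_cases hS : a R w ∈ S
    · refine Finset.mem_union_left _ ?_
      rw [hE]
      exact Finset.mem_filter.2 ⟨hP hz, a R w, hS, hFr _ hz⟩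
    · refine Finset.mem_union_right _ ?_
      refine Finset.mem_biUnion.2 ⟨R, h3.1, Finset.mem_image.2 ⟨w, ?_, rfl⟩⟩
      exact Finset.mem_filter.2 ⟨h3.2, hz, hS⟩
  have h3 : P.card ≤ E.card + ∑ R ∈ range n, ((range n).filter
      (fun w => (R, w) ∈ P ∧ a R w ∉ S)).card := by
    refine (Finset.card_le_card h2).trans ((Finset.card_union_le _ _).trans ?_)
    refine Nat.add_le_add_left (Finset.card_biUnion_le.trans ?_) _
    exact Finset.sum_le_sum fun R _ => Finset.card_image_le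
  have h4 : ((∑ R ∈ range n, ((range n).filter
      (fun w => (R, w) ∈ P ∧ a R w ∉ S)).card : ℕ) : ℝ) ≤ n * b := by
    push_cast
    have h5 : ∀ R ∈ range n, ((((range n).filter
      (fun w => (R, w) ∈ P ∧ a R w ∉ S)).card : ℕ) : ℝ) ≤ b := fun R hR =>
        hrow R (Finset.mem_range.1 hR) _ fun w hw => (Finset.mem_filter.1 hw).2
    refine (Finset.sum_le_sum h5).trans ?_
    rw [Finset.sum_const, Finset.card_range, nsmul_eq_mul]
  have h5 : (P.card : ℝ) ≤ E.card + ((∑ R ∈ range n, ((range n).filter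
      (fun w => (R, w) ∈ P ∧ a R w ∉ S)).card : ℕ) : ℝ) := by exact_mod_cast h3
  have h6 : (E.card : ℝ) ≤ (K + 1) * (z₂ + 1) * S.card := by exact_mod_cast h1
  linarith

end Pool.SLF.Comb
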