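import Pool.Agent.H81.SLP.Ctx3
import Pool.Agent.H59.M5.Clo
import Pool.Agent.H7.SLP.H5L
import Pool.Agent.H6.SLP.Grow
import Pool.Agent.H18.PB.Skel2

/-!
# The slope law on families: data, contexts, heights

Dimension `k + 1`; the passive coordinate is `i₁`. The mesh is `N`, the unit is `J / N` bits. Radii
`a`, rows `R`, precisions `g`, direction digits `q` are in mesh units; windows `v` and numbers of
digits `X` are in bits.

The data (`Dts`) are one germ `G a` for every radius `a` (a function of the point of resolution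
`ρ / N`) and one tube `H a v` for every radius `a` and window `2 ^ (-v)` (a function of the line
and the window). They agree on the ball of radius `2 ^ (-(a + 1) J / N)` around the sample up to
the precision `p a w`, `w` being the window in mesh units. The cells of the contexts have the side
`2 ^ (-(a + 2) J / N)`.

The contexts are those of `Pool.Agent.H81.SLP.Ctx`, the static boxes those of
`Pool.Agent.H7.SLP.H5S`.
-/

set_option autoImplicit false

namespace Pool.SLF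

open Finset Real
open Pool.Agent.H49.Ent Pool.Agent.H32.Dense Pool.STK Pool.KA Pool.KSAT Pool.K2S Pool.PB
open Pool.SLO (ctx nuw shw cl yt)

variable {k J : ℕ}

/-- The values of `slam`. -/
abbrev Sl (F : Fam (k + 1) J) : Type := ((Fin (k + 1) → ℝ) × (Fin (k + 1) → ℝ)) × F.ζ × ℕ

/-- The values of `ptr`. -/
abbrev Pt (F : Fam (k + 1) J) : Type := (Fin (k + 1) → ℤ) × (ℕ × F.ζ)

/-- The values of the contexts. -/
abbrev Cx (F : Fam (k + 1) J) : Type :=
  ((ℕ × ((Fin (k + 1) → ℤ) × (Fin (k + 1) → ℤ))) × ((Fin (k + 1) →₀ ℕ) → ℤ)) × F.ζ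

/-- The law on the event. -/
noncomputable abbrev Qa (F : Fam (k + 1) J) (A : F.Ω → Prop) : F.Ω → ℝ :=
  Pool.Agent.H49.Ent.cond F.p A True

/-! ### Data -/

/-- The germs and the tubes. -/
structure Dts (F : Fam (k + 1) J) where
  G : ℕ → Pt F → MvPolynomial (Fin (k + 1)) ℝ
  H : ℕ → ℕ → Sl F → MvPolynomial (Fin (k + 1)) ℝ

/-- The germ of the sample (the own sheet) for the radius `a`. -/
noncomputable def own (F : Fam (k + 1) J) (N ρ : ℕ) (d : Dts F) (a : ℕ) (ω : F.Ω) :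
    MvPolynomial (Fin (k + 1)) ℝ := d.G a (ptr F (ρ * (J / N)) ω)

/-- **The data are valid** on `A`, with the precisions `p a w` (radius `a`, window `w`). -/
structure Dts.OK {F : Fam (k + 1) J} (d : Dts F) (i₁ : Fin (k + 1)) (N ρ K : ℕ)
    (p : ℕ → ℕ → ℕ) (A : F.Ω → Prop) : Prop where
  dG : ∀ a y, (d.G a y).totalDegree ≤ K
  dH : ∀ a v s, (d.H a v s).totalDegree ≤ K
  mo : ∀ a a' w w' : ℕ, a ≤ a' → a' ≤ ρ → w ≤ w' → w' ≤ a' → p a w ≤ p a' w'
  le : ∀ a w : ℕ, p a w ≤ ρ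
  tr : ∀ a w : ℕ, w ≤ a → a ≤ ρ → a ≤ p a w + 2
  /-- the sample is on its sheet -/
  on : ∀ a ≤ ρ, ∀ ω, A ω →
    |F.x ω i₁ - MvPolynomial.eval (bp F i₁ ω) (own F N ρ d a ω)| ≤ 1 / 2 ^ (p a a * (J / N))
  g0 : ∀ a ≤ ρ, ∀ ω, A ω → ∀ j,
    |MvPolynomial.eval (bp F i₁ ω) (MvPolynomial.pderiv j (own F N ρ d a ω))| ≤
      2 * ((k + 1 : ℕ) : ℝ)
  /-- the slopes are bounded on the ball -/
  gr : ∀ a ≤ ρ, ∀ ω, A ω → ∀ b : Fin (k + 1) → ℝ,
    (∀ j, |b j - bp F i₁ ω j| ≤ 1 / 2 ^ ((a + 1) * (J / N))) → ∀ j,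
    |MvPolynomial.eval b (MvPolynomial.pderiv j (own F N ρ d a ω))| ≤ 2 * ((k + 1 : ℕ) : ℝ) + 1
  /-- the tubes -/
  tb : ∀ a ≤ ρ, ∀ w ≤ a, ∀ v : ℕ, w * (J / N) ≤ v → v ≤ a * (J / N) → ∀ ω, A ω →
    ∀ b : Fin (k + 1) → ℝ, (∀ j, |b j - bp F i₁ ω j| ≤ 1 / 2 ^ ((a + 1) * (J / N))) →
    |MvPolynomial.eval b (own F N ρ d a ω) - MvPolynomial.eval b (d.H a v (slam F v ω))| ≤
      1 / 2 ^ (p a w * (J / N))
  /-- the germs of different radii agree -/
  cm : ∀ a a' : ℕ, a ≤ a' → a' ≤ ρ → ∀ ω, A ω → ∀ b : Fin (k + 1) → ℝ,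
    (∀ j, |b j - bp F i₁ ω j| ≤ 1 / 2 ^ ((a' + 1) * (J / N))) →
    |MvPolynomial.eval b (own F N ρ d a ω) - MvPolynomial.eval b (own F N ρ d a' ω)| ≤
      1 / 2 ^ (p a a * (J / N))

/-! ### Contexts and their variables -/

/-- **The static record** of radius `a` and precision `P`: the side information, the cell of the
sample, the digits of the germ in this cell (a function of the point), and `q` digits of the
direction. -/
noncomputable def st (F : Fam (k + 1) J) (i₁ : Fin (k + 1)) (N ρ q : ℕ) (d : Dts F) (P a : ℕ)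
    (ω : F.Ω) : ((F.ζ × (Fin (k + 1) → ℤ)) × ((Fin (k + 1) →₀ ℕ) → ℤ)) × (Fin (k + 1) → ℤ) :=
  (SLO.rcd F i₁ (ρ * (J / N)) ((a + 2) * (J / N)) (P * (J / N)) (d.G a) ω,
    SLO.cld F i₁ (q * (J / N)) ω)

/-- **The context** of the row `R`, radius `a`, window `2 ^ (-v)`, with `q` digits of the
direction. -/
noncomputable def cx (F : Fam (k + 1) J) (i₁ : Fin (k + 1)) (N q : ℕ) (d : Dts F) (R a v : ℕ) :
    F.Ω → Cx F :=
  ctx F i₁ ((a + 2) * (J / N)) v (q * (J / N)) (R * (J / N)) (d.H a v)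

/-- The height of the own sheet in the context, in units `2 ^ (-(R - 1) J / N)`. -/
noncomputable def nu (F : Fam (k + 1) J) (i₁ : Fin (k + 1)) (N ρ K q : ℕ) (d : Dts F)
    (R a v : ℕ) : F.Ω → ℝ :=
  nuw F i₁ ((a + 2) * (J / N)) v (q * (J / N)) K (R * (J / N)) ((R - 1) * (J / N)) (d.H a v)
    (own F N ρ d a)

/-- Its first `X` digits. -/
noncomputable def nud (F : Fam (k + 1) J) (i₁ : Fin (k + 1)) (N ρ K q : ℕ) (d : Dts F)
    (R a v X : ℕ) (ω : F.Ω) : ℤ := ⌊(2 : ℝ) ^ X * nu F i₁ N ρ K q d R a v ω⌋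

/-- The coefficients of the shape of the own sheet in the context, in the same units. -/
noncomputable def sh (F : Fam (k + 1) J) (i₁ : Fin (k + 1)) (N ρ K q : ℕ) (d : Dts F)
    (R a v : ℕ) : F.Ω → M5.Mon k K → ℝ :=
  shw F i₁ ((a + 2) * (J / N)) v (q * (J / N)) K (R * (J / N)) ((R - 1) * (J / N)) (d.H a v)
    (own F N ρ d a)

/-- Their first `X` digits. -/
noncomputable def shx (F : Fam (k + 1) J) (i₁ : Fin (k + 1)) (N ρ K q : ℕ) (d : Dts F)
    (R a v X : ℕ) (ω : F.Ω) : M5.Mon k K → ℤ :=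
  fun al => ⌊(2 : ℝ) ^ X * sh F i₁ N ρ K q d R a v ω al⌋

/-- The position of the line in the cell, `X` digits. -/
noncomputable def yx (F : Fam (k + 1) J) (i₁ : Fin (k + 1)) (N a v X : ℕ) (ω : F.Ω) :
    Fin k → ℤ := fun j => ⌊(2 : ℝ) ^ X * yt F i₁ ((a + 2) * (J / N)) v ω j⌋

/-- The height of the line over the context as a polynomial in the time of the window. -/
noncomputable def lp (F : Fam (k + 1) J) (i₁ : Fin (k + 1)) (N K q : ℕ) (d : Dts F)
    (R a v : ℕ) : F.Ω → Polynomial ℝ :=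
  cl F i₁ ((a + 2) * (J / N)) v (q * (J / N)) K (R * (J / N)) ((R - 1) * (J / N)) (d.H a v)

/-- The numbers of the line: the coefficients of order `1, …, K`, `X` digits. -/
noncomputable def cdg (F : Fam (k + 1) J) (i₁ : Fin (k + 1)) (N K q : ℕ) (d : Dts F)
    (R a v X : ℕ) (ω : F.Ω) : Fin K → ℤ :=
  fun i => ⌊(2 : ℝ) ^ X * (lp F i₁ N K q d R a v ω).coeff (i.val + 1)⌋

/-! ### Static boxes -/

/-- The static box: exact time, tangential position to `a + 2` digits, height over the corner and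
shape to `R` (mesh) and `s` (bits) digits. -/
noncomputable def bxs (F : Fam (k + 1) J) (i₁ : Fin (k + 1)) (N ρ K : ℕ) (d : Dts F)
    (R a s : ℕ) (ω : F.Ω) :
    (ℕ × F.ζ) × (Fin (k + 1) → ℤ) × ℤ × ((Fin (k + 1) →₀ ℕ) → ℤ) :=
  SLP.sbx i₁ ((a + 2) * (J / N)) (R * (J / N)) F.x (SLP.gfn F i₁ (own F N ρ d a)) F.W
    (SLP.Sc F i₁ ((a + 2) * (J / N)) (R * (J / N)) K (own F N ρ d a)) s ω

/-- The digits of the shape over the static cell. -/
noncomputable def shs (F : Fam (k + 1) J) (i₁ : Fin (k + 1)) (N ρ K : ℕ) (d : Dts F)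
    (R a s : ℕ) : F.Ω → (Fin (k + 1) →₀ ℕ) → ℤ :=
  SLP.Sc F i₁ ((a + 2) * (J / N)) (R * (J / N)) K (own F N ρ d a) s

/-- The tangential position at the time of the sample. -/
noncomputable def tpx (F : Fam (k + 1) J) (i₁ : Fin (k + 1)) (X : ℕ) : F.Ω → Fin (k + 1) → ℤ :=
  SLP.tdg i₁ X F.x

/-! ### Rows -/

/-- **Good row**: the blocks of length `L` at the distance at most `B` blocks from the row `R`
are not full. -/
def GC {m : ℕ} (F : Fam m J) (c : ℝ) (N L B R : ℕ) (A : F.Ω → Prop) : Prop :=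
  B * L ≤ R ∧ ∀ j < 2 * B, Zr F c N (R + j * L - B * L) (R + (j + 1) * L - B * L) A

/-- The gap at the radius `a`, with room: the germs of radius `a - s` have the precision
`R + s`. -/
def Gap (p : ℕ → ℕ → ℕ) (R s a : ℕ) : Prop := s ≤ a ∧ R + s ≤ p (a - s) (a - s)

end Pool.SLF
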