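import Mathlib.Analysis.SpecialFunctions.Log.Basic
import Mathlib.Analysis.Complex.ExponentialBounds

/-!
# The slope law on families: the last inequality
-/

set_option autoImplicit false

namespace Pool.SLF.Num

open Real

theorem log2_le : Real.log 2 ≤ 1 := by
  have := Real.log_two_lt_d9
  linarith

theorem log2_ge : 1 / 2 ≤ Real.log 2 := by
  have := Real.log_two_gt_d9
  linarith

/-- The leaky radii. -/
theorem leaky {k q u x N NQ J ι σ η : ℝ} (hk : 0 ≤ k) (hu : 0 < u) (hx : 1 ≤ x)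
    (hq : q ≤ NQ + 6 * x) (hq0 : 0 ≤ q) (hJ : J ≤ 2 * N * u) (hι : 0 < ι) (hη : 0 ≤ η)
    (h2 : 16 * k / ι * NQ ≤ σ * N / 4) (h3 : 16 * k / ι * (6 * x) ≤ σ * N / 4)
    (h4 : η * 128 = ι * σ) :
    x * ((k * (q * u) * Real.log 2 + η * J) / (ι / 16 * (x * u))) ≤ 3 * (σ * N / 4) := by
  have hx0 : 0 < x := by linarith
  have h5 : k * (q * u) * Real.log 2 ≤ k * (q * u) := by
    have : 0 ≤ k * (q * u) := by positivity
    calc k * (q * u) * Real.log 2 ≤ k * (q * u) * 1 :=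
          mul_le_mul_of_nonneg_left log2_le this
      _ = _ := mul_one _
  have h6 : η * J ≤ η * (2 * N * u) := mul_le_mul_of_nonneg_left hJ hη
  have h7 : k * (q * u) ≤ k * ((NQ + 6 * x) * u) :=
    mul_le_mul_of_nonneg_left (mul_le_mul_of_nonneg_right hq hu.le) hk
  have h8 : x * ((k * (q * u) * Real.log 2 + η * J) / (ι / 16 * (x * u))) =
      (k * (q * u) * Real.log 2 + η * J) * (16 / (ι * u)) := by
    field_simp
  rw [h8]
  have h9 : (k * (q * u) * Real.log 2 + η * J) * (16 / (ι * u)) ≤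
      (k * ((NQ + 6 * x) * u) + η * (2 * N * u)) * (16 / (ι * u)) :=
    mul_le_mul_of_nonneg_right (by linarith) (by positivity)
  refine h9.trans ?_
  have h10 : (k * ((NQ + 6 * x) * u) + η * (2 * N * u)) * (16 / (ι * u)) =
      16 * k / ι * NQ + 16 * k / ι * (6 * x) + (η * 128) * N / (4 * ι) := by
    field_simp
    ring
  rw [h10, h4]
  have h11 : ι * σ * N / (4 * ι) = σ * N / 4 := by field_simp
  rw [h11]
  linarith

/-- The windows of one row. -/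
theorem row {u x NQ nq ι ε ε₂ lc : ℝ} (hu : 0 < u) (hx : 1 ≤ x) (hι : 0 < ι) (hε₂ : 0 ≤ ε₂)
    (hε : ε₂ * 64 ≤ ι * ε) (hnq : nq ≤ NQ) (hNQ : 0 ≤ NQ) (hlc : lc ≤ x * u)
    (h5 : x * (4 / ι + 1) ≤ ε / 16 * NQ) :
    x * ((x * u * Real.log 2 + lc + ε₂ * u * nq) / (ι / 2 * (x * u)) + 1) ≤ ε / 8 * NQ := by
  have hx0 : 0 < x := by linarith
  have h1 : x * u * Real.log 2 ≤ x * u := by
    have : 0 ≤ x * u := by positivity
    calc x * u * Real.log 2 ≤ x * u * 1 := mul_le_mul_of_nonneg_left log2_le this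
      _ = _ := mul_one _
  have h2 : ε₂ * u * nq ≤ ε₂ * u * NQ := mul_le_mul_of_nonneg_left hnq (by positivity)
  have h3 : (x * u * Real.log 2 + lc + ε₂ * u * nq) / (ι / 2 * (x * u)) ≤
      (x * u + x * u + ε₂ * u * NQ) / (ι / 2 * (x * u)) :=
    div_le_div_of_nonneg_right (by linarith) (by positivity)
  have h4 : x * ((x * u + x * u + ε₂ * u * NQ) / (ι / 2 * (x * u)) + 1) =
      x * (4 / ι + 1) + 2 * ε₂ / ι * NQ := by
    field_simp
    ring
  have h6 : 2 * ε₂ / ι ≤ ε / 16 := by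
    rw [div_le_iff₀ hι]
    nlinarith
  have h7 : 2 * ε₂ / ι * NQ ≤ ε / 16 * NQ := mul_le_mul_of_nonneg_right h6 hNQ
  calc x * ((x * u * Real.log 2 + lc + ε₂ * u * nq) / (ι / 2 * (x * u)) + 1) ≤
        x * ((x * u + x * u + ε₂ * u * NQ) / (ι / 2 * (x * u)) + 1) :=
        mul_le_mul_of_nonneg_left (by linarith) hx0.le
    _ = x * (4 / ι + 1) + 2 * ε₂ / ι * NQ := h4
    _ ≤ ε / 16 * NQ + ε / 16 * NQ := by linarith
    _ = ε / 8 * NQ := by ring

/-- **The last inequality.** -/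
theorem final {K N NQ nq x ε σ E₁ E₂ R : ℝ} (hK : 0 ≤ K) (hN : 1 ≤ N) (hNQ : 1 ≤ NQ)
    (hnq : nq ≤ NQ) (hx : 1 ≤ x) (hσ : σ * (4 * (K + 1)) = ε)
    (h1 : E₁ ≤ σ * N / 4) (h2 : E₂ ≤ 3 * (σ * N / 4)) (h3 : x * R ≤ ε / 8 * NQ) (hR : 0 ≤ R)
    (hE₁ : 0 ≤ E₁) (hE₂ : 0 ≤ E₂) :
    (K + 1) * (nq + 1) * (E₁ + E₂) + (N + 1) * ((x + 1) * R) ≤ ε * N * NQ := by
  have h4 : E₁ + E₂ ≤ σ * N := by linarith
  have h5 : (K + 1) * (nq + 1) * (E₁ + E₂) ≤ (K + 1) * (2 * NQ) * (σ * N) := by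
    refine mul_le_mul (mul_le_mul_of_nonneg_left (by linarith) (by linarith)) h4
      (by linarith) (by positivity)
  have h6 : (K + 1) * (2 * NQ) * (σ * N) = ε * N * NQ / 2 := by
    rw [← hσ]
    ring
  have h7 : (x + 1) * R ≤ 2 * (x * R) := by nlinarith
  have h8 : (N + 1) * ((x + 1) * R) ≤ 2 * N * (2 * (ε / 8 * NQ)) := by
    refine mul_le_mul (by linarith) (by linarith) (by positivity) (by positivity)
  have h9 : 2 * N * (2 * (ε / 8 * NQ)) = ε * N * NQ / 2 := by ring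
  linarith

theorem nA {B L γ M : ℝ} (h : 2 * B + 3 ≤ M * γ) (hL : 1 ≤ L) :
    2 * (B * L) + 2 < γ * (M * L) := by
  have := mul_le_mul_of_nonneg_right h (by linarith : (0 : ℝ) ≤ L)
  nlinarith

theorem nB {C L ι B : ℝ} (h : 16 * C ≤ ι * B) (hL : 0 ≤ L) : C * L ≤ ι / 16 * (B * L) := by
  have := mul_le_mul_of_nonneg_right h hL
  nlinarith

theorem nC {B L γ σ M : ℝ} (h : 4 * B * (1 + 2 / γ) ≤ M * σ) (hL : 0 ≤ L) :
    B * L * (1 + 2 / γ) ≤ σ * (M * L) / 4 := by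
  have := mul_le_mul_of_nonneg_right h hL
  linarith

theorem nD {k Q ι σ N : ℝ} (h : 64 * k ≤ Q * (ι * σ)) (hN : 0 ≤ N) (hι : 0 < ι) (hQ : 0 < Q) :
    16 * k / ι * (N / Q) ≤ σ * N / 4 := by
  have e : 16 * k / ι * (N / Q) = (64 * k) * N / (4 * (ι * Q)) := by
    field_simp
    ring
  rw [e, div_le_div_iff₀ (by positivity) (by positivity)]
  have := mul_le_mul_of_nonneg_right h hN
  nlinarith

theorem nE {k B L ι σ M : ℝ} (h : 384 * k * B ≤ M * (ι * σ)) (hL : 0 ≤ L) (hι : 0 < ι) :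
    16 * k / ι * (6 * (B * L)) ≤ σ * (M * L) / 4 := by
  have e : 16 * k / ι * (6 * (B * L)) = 384 * k * B * L / (4 * ι) := by
    field_simp
    ring
  rw [e, div_le_div_iff₀ (by positivity) (by positivity)]
  have := mul_le_mul_of_nonneg_right h hL
  nlinarith

theorem nF {M L Q : ℝ} (h : Q ≤ M) (hL : 1 ≤ L) (hQ : 0 < Q) : 1 ≤ M * L / Q := by
  rw [one_le_div hQ]
  nlinarith

end Pool.SLF.Num
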