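import Pool.Agent.H71.SLP.Cnt
import Pool.Agent.H71.SLP.Num
import Pool.Agent.H71.SLP.Cls

/-!
# The slope law on families: the bound for one family
-/

set_option autoImplicit false

namespace Pool.SLF

open Finset Real
open Pool.Agent.H49.Ent Pool.Agent.H32.Dense Pool.STK Pool.KA Pool.KSAT Pool.K2S Pool.PB
open Pool.KAF
open Pool.KVA (MI)

variable {k J : ℕ}

open Classical in
/-- **The bound for one family.** -/
theorem fam_bound {F : Fam (k + 1) J} {i₁ : Fin (k + 1)} {N ρ K q x L B Q : ℕ}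
    {c c' κ₂ ι κ π₀ ε₀ ε₂ C₁ CY EV e₁ DM γ ε σ η₁ : ℝ} {j₀ X₀ : ℕ} {A : F.Ω → Prop} {d : Dts F}
    (hC : CoreC k K (C0 k K) (c' / 2) (1 / 8) κ₂ κ π₀ ι ε₀ C₁ j₀ X₀)
    (fc : Fct F i₁ N ρ K q x L B c' ι κ π₀ ε₂ C₁ CY EV e₁ DM A d)
    (P : Par J N ρ K q x L B Q κ₂ ι ε₀ e₁ j₀ X₀)
    (hlip : ∀ a w, thrT F i₁ N ρ K A (a + 1) w ≤ thrT F i₁ N ρ K A a w + K + 1)
    (hc : c' ≤ c) (hγ : 0 < γ) (hγN : 2 * ((B * L : ℕ) : ℝ) + 2 < γ * N) (hι : 0 < ι)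
    (hε₂ : 0 ≤ ε₂) (hε₂ι : ε₂ * 64 ≤ ι) (hε₂ε : ε₂ * 64 ≤ ι * ε) (hη₁ : 0 ≤ η₁)
    (hJu : (J : ℝ) ≤ 2 * N * ((J / N : ℕ) : ℝ))
    (hCYu : CY ≤ ι / 32 * (x * ((J / N : ℕ) : ℝ)))
    (hEVu : EV ≤ 3 * ι / 32 * (x * ((J / N : ℕ) : ℝ)))
    (hlc : Real.log (2 * C0 k K + 5) ≤ x * ((J / N : ℕ) : ℝ))
    (hDM : DM = k * ((q * (J / N) : ℕ) : ℝ) * Real.log 2 + η₁ * J)
    (hη₁σ : η₁ * 128 = ι * σ) (hσ : σ * (4 * ((K : ℝ) + 1)) = ε)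
    (n1 : (B : ℝ) * L * (1 + 2 / γ) ≤ σ * N / 4) (n2 : 16 * k / ι * ((N : ℝ) / Q) ≤ σ * N / 4)
    (n3 : 16 * k / ι * (6 * (x : ℝ)) ≤ σ * N / 4)
    (n5 : (x : ℝ) * (4 / ι + 1) ≤ ε / 16 * ((N : ℝ) / Q)) (hNQ : 1 ≤ (N : ℝ) / Q) :
    (((range (N + 1) ×ˢ range (N + 1)).filter fun z => z.1 + B * L ≤ ρ ∧
        GC F c N L B z.1 A ∧ Bad F i₁ N K ρ Q γ (1 * L) A z.1 z.2).card : ℝ) ≤
        ε * N * (N / Q) := by
  obtain ⟨u, hu⟩ : ∃ u : ℝ, u = ((J / N : ℕ) : ℝ) := ⟨_, rfl⟩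
  have hX' : (((x * (J / N) : ℕ)) : ℝ) = x * u := by
    rw [hu]
    push_cast
    ring
  rw [← hu] at hJu hCYu hEVu hlc
  have hu1 : (1 : ℝ) ≤ u := by
    rw [hu]
    exact_mod_cast u_pos P
  have hx1 : (1 : ℝ) ≤ x := by exact_mod_cast P.hx
  have hN1 : (1 : ℝ) ≤ N := by exact_mod_cast P.hN
  have hxu0 : 0 < (x : ℝ) * u := by positivity
  have hlog2 := Num.log2_ge
  have hC0 := one_le_C0 k K
  have hlc0 : 0 ≤ Real.log (2 * C0 k K + 5) := Real.log_nonneg (by linarith only [hC0])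
  have hDM0 : 0 ≤ DM := by rw [hDM]; positivity
  have hιxu : 0 < ι * (x * u) := by positivity
  have hcount := count (γ := γ) hC fc P hlip hγ hγN (t := ι / 16 * (x * u)) (by positivity) (by
      rw [hX']
      nlinarith only [hEVu, hCYu, hιxu, hlog2]) (by
      rw [hX']
      nlinarith only [hEVu, hCYu, hιxu, hε₂ι, hι, hX', hε₂]) hι hε₂ hDM0
    ((range (N + 1) ×ˢ range (N + 1)).filter fun z => z.1 + B * L ≤ ρ ∧
        GC F c N L B z.1 A ∧ Bad F i₁ N K ρ Q γ (1 * L) A z.1 z.2) (by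
      intro z hz
      obtain ⟨h1, h2, h3, h4⟩ := Finset.mem_filter.1 hz
      rw [Finset.mem_product, Finset.mem_range, Finset.mem_range] at h1
      rw [Nat.one_mul] at h4
      exact ⟨by omega, by omega, h2, GC_mono hc h3, h4⟩)
  refine hcount.trans ?_
  rw [hX', ← hu]
  have hnq : ((N / Q : ℕ) : ℝ) ≤ (N : ℝ) / Q := Nat.cast_div_le
  have hqr : (q : ℝ) ≤ (N : ℝ) / Q + 6 * x := by
    have h1 : (q : ℝ) = ((N / Q : ℕ) : ℝ) + x + 5 := by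
      rw [P.hq]
      push_cast
      ring
    rw [h1]
    linarith only [hx1, hnq]
  have k1 := Num.leaky (k := k) (q := q) (u := u) (x := x) (N := N) (NQ := (N : ℝ) / Q) (J := J)
    (ι := ι) (σ := σ) (η := η₁) (Nat.cast_nonneg _) (by linarith only [hu1]) hx1 hqr (Nat.cast_nonneg _) hJu
    hι hη₁ n2 n3 hη₁σ
  have k2 := Num.row (u := u) (x := x) (NQ := (N : ℝ) / Q) (nq := ((N / Q : ℕ) : ℝ)) (ι := ι)
    (ε := ε) (ε₂ := ε₂) (lc := Real.log (2 * C0 k K + 5)) (by linarith only [hu1]) hx1 hι hε₂ hε₂ε hnq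
    (by linarith only [hNQ]) hlc n5
  have hDM' : DM = k * (q * u) * Real.log 2 + η₁ * J := by
    rw [hDM, hu]
    push_cast
    ring
  rw [hDM']
  have e1 : ((B * L : ℕ) : ℝ) = B * L := by push_cast; ring
  have e2 : ((N + 1 : ℕ) : ℝ) = N + 1 := by push_cast; ring
  have e3 : ((x + 1 : ℕ) : ℝ) = x + 1 := by push_cast; ring
  rw [e1, e2, e3]
  refine Num.final (K := K) (N := N) (NQ := (N : ℝ) / Q) (nq := ((N / Q : ℕ) : ℝ)) (x := x)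
    (ε := ε) (σ := σ) (Nat.cast_nonneg _) hN1 hNQ hnq hx1 hσ n1 k1 k2 ?_ ?_ ?_
  · positivity
  · positivity
  · positivity

end Pool.SLF
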