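import Pool.Agent.H71.SLP.Stmts
import Pool.Agent.H25.M5.H1F

/-!
# The slope law on families: elementary facts about valid data
-/

set_option autoImplicit false

namespace Pool.SLF

open Finset Real MvPolynomial
open Pool.Agent.H49.Ent Pool.Agent.H32.Dense Pool.STK Pool.KA Pool.KSAT Pool.K2S Pool.PB
open Pool.KAF
open Pool.KVA (MI)

variable {k J : ℕ}

/-- Points of the box at the time of the sample are near the sample. -/
theorem near_slice (F : Fam (k + 1) J) (i₁ : Fin (k + 1)) {a v q : ℕ} (hv : v ≤ J)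
    (hq : a ≤ q + v) (ω : F.Ω) {z : Fin (k + 1) → ℝ} (hz : ∀ i, 0 ≤ z i ∧ z i ≤ 1)
    (hzi : z i₁ = F.tw v ω) (j : Fin (k + 1)) :
    |SLO.sb i₁ a v (SLO.cw F i₁ a v ω) (SLO.dq F i₁ q ω) z j - bp F i₁ ω j| ≤ 2 / 2 ^ a := by
  have hpos : (0 : ℝ) < 2 ^ a := by positivity
  have t01 := T1_real F hv ω
  have t0 : 0 ≤ F.tw v ω := by
    unfold Fam.tw
    linarith [t01.1]
  have t1 : F.tw v ω ≤ 1 := by
    unfold Fam.tw
    linarith [t01.2]
  rw [← SLO.sb_pb F i₁ a v q ω]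
  have hp1 : SLO.pb F i₁ a v q ω i₁ = F.tw v ω := by
    unfold SLO.pb SLO.pnt
    rw [if_pos rfl]
  unfold SLO.sb
  by_cases hj : j = i₁
  · rw [if_pos hj, if_pos hj, hp1, hzi, sub_self, abs_zero]
    positivity
  · rw [if_neg hj, if_neg hj, hp1, hzi]
    have e : SLO.cw F i₁ a v ω j + SLO.dq F i₁ q ω j * (F.tw v ω / 2 ^ v) + z j / 2 ^ a -
        (SLO.cw F i₁ a v ω j + SLO.dq F i₁ q ω j * (F.tw v ω / 2 ^ v) +
          SLO.pb F i₁ a v q ω j / 2 ^ a) = (z j - SLO.pb F i₁ a v q ω j) / 2 ^ a := by ring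
    rw [e, abs_div, abs_of_pos hpos]
    refine div_le_div_of_nonneg_right ?_ hpos.le
    have h1 := SLO.yb_mem F i₁ a v ω j
    have h2 := SLO.omb_mem F i₁ a v q ω j
    have h3 : (2 : ℝ) ^ a / (2 ^ v * 2 ^ q) ≤ 1 := by
      rw [div_le_one (by positivity), ← pow_add]
      exact pow_le_pow_right₀ (by norm_num) (by omega)
    have h4 : SLO.pb F i₁ a v q ω j = SLO.yb F i₁ a v ω j +
        F.tw v ω * SLO.omb F i₁ a v q ω j := by
      unfold SLO.pb SLO.pnt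
      rw [if_neg hj]
    have h5 : 0 ≤ F.tw v ω * SLO.omb F i₁ a v q ω j := mul_nonneg t0 h2.1
    have h6 : F.tw v ω * SLO.omb F i₁ a v q ω j ≤ 1 * 1 :=
      mul_le_mul t1 (h2.2.trans h3) h2.1 zero_le_one
    have h7 := hz j
    rw [h4, abs_le]
    constructor <;> linarith [h1.1, h1.2, h7.1, h7.2]

/-- The constant of the slice bound. -/
noncomputable def C0 (k K : ℕ) : ℝ := 1 + (SLO.mons (k + 1) K).card

theorem one_le_C0 (k K : ℕ) : 1 ≤ C0 k K := by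
  unfold C0
  have : (0 : ℝ) ≤ (SLO.mons (k + 1) K).card := Nat.cast_nonneg _
  linarith

/-- **The slice bound**: the own sheet is near the polynomial of the context, at the time of the
sample. -/
theorem slice {F : Fam (k + 1) J} {i₁ : Fin (k + 1)} {N ρ K q : ℕ} {p : ℕ → ℕ → ℕ}
    {A : F.Ω → Prop} {d : Dts F} (hd : d.OK i₁ N ρ K p A) {R a w v : ℕ} (hu : 1 ≤ J / N)
    (ha : a ≤ ρ) (hw : w ≤ a) (hR : R ≤ p a w) (h1 : w * (J / N) ≤ v) (h2 : v ≤ a * (J / N))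
    (hvJ : v ≤ J) (hq : (a + 2) * (J / N) ≤ q * (J / N) + v) {ω : F.Ω} (hω : A ω)
    {z : Fin (k + 1) → ℝ} (hz : ∀ i, 0 ≤ z i ∧ z i ≤ 1) (hzi : z i₁ = F.tw v ω) :
    |2 ^ ((R - 1) * (J / N)) * (eval z (SLO.plb F i₁ ((a + 2) * (J / N)) v (q * (J / N)) ω
      (own F N ρ d a ω)) - eval z (SLO.Rc F i₁ ((a + 2) * (J / N)) v (q * (J / N)) K
        (R * (J / N)) (d.H a v) ω))| ≤ C0 k K := by
  set u := J / N with hu'
  have hnear := near_slice F i₁ (a := (a + 2) * u) (q := q * u) hvJ hq ω hz hzi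
  have hball : ∀ j, |SLO.sb i₁ ((a + 2) * u) v (SLO.cw F i₁ ((a + 2) * u) v ω)
      (SLO.dq F i₁ (q * u) ω) z j - bp F i₁ ω j| ≤ 1 / 2 ^ ((a + 1) * u) := by
    intro j
    refine (hnear j).trans ?_
    rw [div_le_div_iff₀ (by positivity) (by positivity), one_mul]
    have e : (2 : ℝ) * 2 ^ ((a + 1) * u) = 2 ^ ((a + 1) * u + 1) := by ring
    rw [e]
    refine pow_le_pow_right₀ (by norm_num) ?_
    nlinarith
  have h3 := hd.tb a ha w hw v h1 h2 ω hω _ hball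
  have h4 : (1 : ℝ) / 2 ^ (p a w * u) ≤ 1 / 2 ^ (R * u) :=
    one_div_le_one_div_of_le (by positivity)
      (pow_le_pow_right₀ (by norm_num) (Nat.mul_le_mul_right _ hR))
  have h5 : eval z (SLO.plb F i₁ ((a + 2) * u) v (q * u) ω (own F N ρ d a ω)) =
      eval (SLO.sb i₁ ((a + 2) * u) v (SLO.cw F i₁ ((a + 2) * u) v ω)
        (SLO.dq F i₁ (q * u) ω) z) (own F N ρ d a ω) := by
    unfold SLO.plb
    rw [SLO.eval_pull]
  have h6 : eval z (SLO.plb F i₁ ((a + 2) * u) v (q * u) ω (d.H a v (slam F v ω))) =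
      eval (SLO.sb i₁ ((a + 2) * u) v (SLO.cw F i₁ ((a + 2) * u) v ω)
        (SLO.dq F i₁ (q * u) ω) z) (d.H a v (slam F v ω)) := by
    unfold SLO.plb
    rw [SLO.eval_pull]
  have h7 := SLO.abs_rdp_le (K := K) (P := R * u)
    (G := SLO.plb F i₁ ((a + 2) * u) v (q * u) ω (d.H a v (slam F v ω)))
    ((SLO.totalDegree_pull_le _ _ _ _ _ _).trans (hd.dH a v _)) (b := z) (fun i => by
      rw [abs_of_nonneg (hz i).1]
      exact (hz i).2)
  have h8 : |eval z (SLO.plb F i₁ ((a + 2) * u) v (q * u) ω (own F N ρ d a ω)) -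
      eval z (SLO.Rc F i₁ ((a + 2) * u) v (q * u) K (R * u) (d.H a v) ω)| ≤
      C0 k K / 2 ^ (R * u) := by
    have e : C0 k K / 2 ^ (R * u) = 1 / 2 ^ (R * u) +
        ((SLO.mons (k + 1) K).card : ℝ) / 2 ^ (R * u) := by
      unfold C0
      ring
    rw [e]
    have h9 := h3.trans h4
    rw [← h5, ← h6] at h9
    have h10 : eval z (SLO.plb F i₁ ((a + 2) * u) v (q * u) ω (own F N ρ d a ω)) -
      eval z (SLO.Rc F i₁ ((a + 2) * u) v (q * u) K (R * u) (d.H a v) ω) =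
      (eval z (SLO.plb F i₁ ((a + 2) * u) v (q * u) ω (own F N ρ d a ω)) -
        eval z (SLO.plb F i₁ ((a + 2) * u) v (q * u) ω (d.H a v (slam F v ω)))) +
      (eval z (SLO.plb F i₁ ((a + 2) * u) v (q * u) ω (d.H a v (slam F v ω))) -
        eval z (SLO.rdp K (R * u) (SLO.plb F i₁ ((a + 2) * u) v (q * u) ω
          (d.H a v (slam F v ω))))) := by
      unfold SLO.Rc
      ring
    rw [h10]
    exact (abs_add_le _ _).trans (add_le_add h9 h7)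
  rw [abs_mul, abs_of_pos (by positivity : (0 : ℝ) < 2 ^ ((R - 1) * u))]
  have hC := one_le_C0 k K
  calc (2 : ℝ) ^ ((R - 1) * u) * _ ≤ 2 ^ (R * u) * (C0 k K / 2 ^ (R * u)) := by
        refine mul_le_mul (pow_le_pow_right₀ (by norm_num) (Nat.mul_le_mul_right _ (by omega)))
          h8 (abs_nonneg _) (by positivity)
    _ = C0 k K := by field_simp

/-- The height is bounded. -/
theorem nu_le {F : Fam (k + 1) J} {i₁ : Fin (k + 1)} {N ρ K q : ℕ} {p : ℕ → ℕ → ℕ}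
    {A : F.Ω → Prop} {d : Dts F} (hd : d.OK i₁ N ρ K p A) {R a w v : ℕ} (hu : 1 ≤ J / N)
    (ha : a ≤ ρ) (hw : w ≤ a) (hR : R ≤ p a w) (h1 : w * (J / N) ≤ v) (h2 : v ≤ a * (J / N))
    (hvJ : v ≤ J) (hq : (a + 2) * (J / N) ≤ q * (J / N) + v) {ω : F.Ω} (hω : A ω) :
    |nu F i₁ N ρ K q d R a v ω| ≤ C0 k K := by
  have t01 := T1_real F hvJ ω
  have t0 : 0 ≤ F.tw v ω := by
    unfold Fam.tw
    linarith [t01.1]
  have t1 : F.tw v ω ≤ 1 := by
    unfold Fam.tw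
    linarith [t01.2]
  refine slice hd hu ha hw hR h1 h2 hvJ hq hω (z := SLO.pnt i₁ 0 0 (F.tw v ω)) ?_ ?_
  · intro i
    unfold SLO.pnt
    split_ifs
    · exact ⟨t0, t1⟩
    · simp
  · unfold SLO.pnt
    rw [if_pos rfl]

theorem CH_Icc {Ω S : Type} [Fintype Ω] {p : Ω → ℝ} (hp : IsLaw p) (n : Ω → ℤ) (W : Ω → S)
    (M : ℕ) (h : ∀ ω, 0 < p ω → |n ω| ≤ M) : CH p n W ≤ Real.log (2 * M + 1) := by
  classical
  refine (CH_le_card hp.nonneg hp.sum_one n W (fun _ => Finset.Icc (-(M : ℤ)) M)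
    (fun ω hω => ?_)).trans (le_of_eq ?_)
  · rw [Finset.mem_Icc]
    exact abs_le.1 (h ω hω)
  · rw [Ex_const hp.sum_one, Int.card_Icc]
    congr 1
    have : ((M : ℤ) + 1 - -(M : ℤ)).toNat = 2 * M + 1 := by omega
    rw [this]
    push_cast
    ring

/-- The entropy of the digits of the height. -/
theorem nud_ent {F : Fam (k + 1) J} {i₁ : Fin (k + 1)} {N ρ K q : ℕ} {p : ℕ → ℕ → ℕ}
    {A : F.Ω → Prop} {d : Dts F} (hA : IsLaw (Qa F A)) (hd : d.OK i₁ N ρ K p A) {R a w v : ℕ}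
    (hu : 1 ≤ J / N) (ha : a ≤ ρ) (hw : w ≤ a) (hR : R ≤ p a w) (h1 : w * (J / N) ≤ v)
    (h2 : v ≤ a * (J / N)) (hvJ : v ≤ J) (hq : (a + 2) * (J / N) ≤ q * (J / N) + v)
    (hsup : ∀ ω, 0 < Qa F A ω → A ω) {S : Type} (W : F.Ω → S) (X : ℕ) :
    CH (Qa F A) (nud F i₁ N ρ K q d R a v X) W ≤
      X * Real.log 2 + Real.log (2 * C0 k K + 5) := by
  have hC := one_le_C0 k K
  have hX1 : (1 : ℝ) ≤ 2 ^ X := one_le_pow₀ (by norm_num)
  obtain ⟨M, hM⟩ : ∃ M : ℕ, M = ⌈2 ^ X * C0 k K⌉₊ + 1 := ⟨_, rfl⟩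
  have hM1 : 2 ^ X * C0 k K + 1 ≤ M := by
    rw [hM]
    push_cast
    linarith [Nat.le_ceil (2 ^ X * C0 k K)]
  have hM2 : (M : ℝ) ≤ 2 ^ X * C0 k K + 2 := by
    rw [hM]
    push_cast
    have := (Nat.ceil_lt_add_one (show (0 : ℝ) ≤ 2 ^ X * C0 k K by positivity)).le
    linarith
  refine (CH_Icc hA _ W M fun ω hω => ?_).trans ?_
  · have h3 := nu_le hd hu ha hw hR h1 h2 hvJ hq (hsup ω hω)
    have h4 : |(2 : ℝ) ^ X * nu F i₁ N ρ K q d R a v ω| ≤ 2 ^ X * C0 k K := by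
      rw [abs_mul, abs_of_pos (by positivity : (0 : ℝ) < 2 ^ X)]
      exact mul_le_mul_of_nonneg_left h3 (by positivity)
    unfold nud
    have h5 := Int.floor_le ((2 : ℝ) ^ X * nu F i₁ N ρ K q d R a v ω)
    have h6 := Int.lt_floor_add_one ((2 : ℝ) ^ X * nu F i₁ N ρ K q d R a v ω)
    have h7 := abs_le.1 h4
    have h8 : |((⌊(2 : ℝ) ^ X * nu F i₁ N ρ K q d R a v ω⌋ : ℤ) : ℝ)| ≤ (M : ℝ) := by
      rw [abs_le]
      constructor <;> linarith [h7.1, h7.2]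
    exact_mod_cast h8
  · have h3 : (2 * (M : ℝ) + 1) ≤ 2 ^ X * (2 * C0 k K + 5) := by nlinarith
    have h4 : (0 : ℝ) < 2 * M + 1 := by positivity
    refine (Real.log_le_log h4 h3).trans (le_of_eq ?_)
    rw [Real.log_mul (by positivity) (by positivity), Real.log_pow]

/-- The own sheet is a function of the line and the exact time. -/
theorem own_det (F : Fam (k + 1) J) (N ρ : ℕ) (d : Dts F) (a v : ℕ) {ω ω' : F.Ω}
    (h : slam F v ω = slam F v ω') (hW : F.W ω = F.W ω') :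
    own F N ρ d a ω = own F N ρ d a ω' := by
  have h1 := Prod.ext_iff.1 h
  have h2 : F.l ω = F.l ω' := h1.1
  have h3 := Prod.ext_iff.1 h2
  have hu : F.u ω = F.u ω' := h3.1
  have hd : F.d ω = F.d ω' := h3.2
  have hT : F.T ω = F.T ω' := (Prod.ext_iff.1 hW).1
  have hx : F.x ω = F.x ω' := by
    funext i
    unfold Fam.x Fam.t
    rw [hu, hd, hT]
  unfold own ptr Fam.X
  rw [hx, hW]

/-- (H1), first part. -/
theorem H1_MI {F : Fam (k + 1) J} {q : F.Ω → ℝ} {e : ℝ} (hq : IsLaw q)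
    (he : (J : ℝ) * Real.log 2 - e ≤ CH q F.T (fun ω => (F.l ω, F.Z ω))) {v : ℕ} (hv : v ≤ J)
    (i₁ : Fin (k + 1)) (a q' P : ℕ) (H : Sl F → MvPolynomial (Fin (k + 1)) ℝ) :
    MI q F.W (slam F v) (SLO.ctx F i₁ a v q' P H) ≤ e := by
  have h := Pool.Agent.H25.M5.h1_MI he hq hv (SLO.ctx F i₁ a v q' P H) F.Z
    (fun ω ω' _ _ h => SLO.ctx_of_slam h)
    (fun ω ω' _ _ h => (SLO.ctx_ext h).1)
  have h0 : CH q F.Z (fun ω => (F.T ω, SLO.ctx F i₁ a v q' P H ω)) = 0 :=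
    CH_eq_zero hq.nonneg (fun ω ω' _ _ h => by
      have h1 := (Prod.ext_iff.1 h).2
      exact (SLO.ctx_ext h1).2.2.2.2.2.2.2)
  rw [h0, add_zero] at h
  exact h

end Pool.SLF
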