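import Pool.Agent.H71.SLP.Geo
import Pool.Agent.H71.SLP.Comb
import Pool.Agent.H38.SLP.TRV

/-!
# The slope law on families: one pair, one step of the chain of windows
-/

set_option autoImplicit false

namespace Pool.SLF

open Finset Real MvPolynomial
open Pool.Agent.H49.Ent Pool.Agent.H32.Dense Pool.STK Pool.KA Pool.KSAT Pool.K2S Pool.PB
open Pool.KAF
open Pool.KVA (MI)

variable {k J : ℕ}

theorem Qa_sup (F : Fam (k + 1) J) (A : F.Ω → Prop) (ω : F.Ω) (hω : 0 < Qa F A ω) : A ω := by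
  have := ((cond_pos_iff F.isLaw.nonneg A True ω).1 hω).2
  rw [this]
  trivial

/-! ### Tangential positions -/

/-- The entropy of additional digits. -/
theorem tdg_le {Ω S : Type} [Fintype Ω] {p : Ω → ℝ} (hp : IsLaw p) (i₁ : Fin (k + 1))
    (x : Ω → Fin (k + 1) → ℝ) (r j : ℕ) (W : Ω → S) (hW : Det p W (SLP.tdg i₁ r x)) :
    CH p (SLP.tdg i₁ (r + j) x) W ≤ k * j * Real.log 2 := by
  classical
  refine (CH_mono_cond hp.nonneg hW).trans ?_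
  have h := CH_le_card hp.nonneg hp.sum_one (SLP.tdg i₁ (r + j) x) (SLP.tdg i₁ r x)
    (fun c => Fintype.piFinset (fun i => if i = i₁ then ({0} : Finset ℤ) else
      Finset.Ico (2 ^ j * c i) (2 ^ j * (c i + 1)))) (by
    intro ω _
    rw [Fintype.mem_piFinset]
    intro i
    unfold SLP.tdg
    by_cases hi : i = i₁
    · rw [if_pos hi, if_pos hi]
      exact Finset.mem_singleton_self 0
    · rw [if_neg hi, if_neg hi, if_neg hi, Finset.mem_Ico]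
      have h1 := Int.floor_le ((2 : ℝ) ^ r * x ω i)
      have h2 := Int.lt_floor_add_one ((2 : ℝ) ^ r * x ω i)
      have e : (2 : ℝ) ^ (r + j) * x ω i = 2 ^ j * (2 ^ r * x ω i) := by
        rw [pow_add]
        ring
      have hj : (0 : ℝ) < 2 ^ j := by positivity
      rw [e]
      constructor
      · rw [Int.le_floor]
        push_cast
        exact mul_le_mul_of_nonneg_left h1 hj.le
      · rw [Int.floor_lt]
        push_cast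
        exact mul_lt_mul_of_pos_left h2 hj)
  refine h.trans (le_of_eq ?_)
  have h1 : ∀ c : Fin (k + 1) → ℤ, (Fintype.piFinset (fun i => if i = i₁ then ({0} : Finset ℤ)
      else Finset.Ico (2 ^ j * c i) (2 ^ j * (c i + 1)))).card = (2 ^ j) ^ k := by
    intro c
    rw [Fintype.card_piFinset, Fin.prod_univ_succAbove _ i₁, if_pos rfl, Finset.card_singleton,
      one_mul]
    have h2 : ∀ i : Fin k, (if i₁.succAbove i = i₁ then ({0} : Finset ℤ) else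
        Finset.Ico (2 ^ j * c (i₁.succAbove i)) (2 ^ j * (c (i₁.succAbove i) + 1))).card =
        2 ^ j := by
      intro i
      rw [if_neg (Fin.succAbove_ne i₁ i), Int.card_Ico]
      have : (2 : ℤ) ^ j * (c (i₁.succAbove i) + 1) - 2 ^ j * c (i₁.succAbove i) =
          ((2 ^ j : ℕ) : ℤ) := by
        push_cast
        ring
      rw [this, Int.toNat_natCast]
    rw [Finset.prod_congr rfl fun i _ => h2 i, Finset.prod_const, Finset.card_univ,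
      Fintype.card_fin]
  have h2 : (fun ω : Ω => Real.log ((Fintype.piFinset (fun i => if i = i₁ then
      ({0} : Finset ℤ) else Finset.Ico (2 ^ j * SLP.tdg i₁ r x ω i)
        (2 ^ j * (SLP.tdg i₁ r x ω i + 1)))).card : ℝ)) = fun _ => k * j * Real.log 2 := by
    funext ω
    rw [h1]
    push_cast
    rw [← pow_mul, Real.log_pow]
    push_cast
    ring
  rw [h2, Ex_const hp.sum_one]

/-- The static record determines the tangential position. -/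
theorem st_tdg (F : Fam (k + 1) J) (i₁ : Fin (k + 1)) (N ρ q : ℕ) (d : Dts F) (P a : ℕ)
    {ω ω' : F.Ω} (h : st F i₁ N ρ q d P a ω = st F i₁ N ρ q d P a ω') :
    tpx F i₁ ((a + 2) * (J / N)) ω = tpx F i₁ ((a + 2) * (J / N)) ω' := by
  have h1 := (Prod.ext_iff.1 (Prod.ext_iff.1 (Prod.ext_iff.1 h).1).1).2
  funext i
  unfold tpx SLP.tdg
  by_cases hi : i = i₁
  · rw [if_pos hi, if_pos hi]
  · rw [if_neg hi, if_neg hi]
    have h2 := congrFun h1 i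
    change ⌊(2 : ℝ) ^ ((a + 2) * (J / N)) * bp F i₁ ω i⌋ =
      ⌊(2 : ℝ) ^ ((a + 2) * (J / N)) * bp F i₁ ω' i⌋ at h2
    unfold bp at h2
    rwa [Function.update_of_ne hi, Function.update_of_ne hi] at h2

/-- The defect of the tangential positions at the radius `a₀ + j x`. -/
noncomputable def dft (F : Fam (k + 1) J) (i₁ : Fin (k + 1)) (N ρ q x : ℕ) (d : Dts F)
    (p : ℕ → ℕ → ℕ) (A : F.Ω → Prop) (a₀ j : ℕ) : ℝ :=
  k * ((x * (J / N) : ℕ) : ℝ) * Real.log 2 -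
    CH (Qa F A) (tpx F i₁ ((a₀ + (j + 1) * x + 2) * (J / N)))
      (fun ω => ((fun i : Fin (j + 1) => st F i₁ N ρ q d (p (a₀ + i * x) (a₀ + i * x))
        (a₀ + i * x) ω), F.W ω))

theorem dft_nonneg {F : Fam (k + 1) J} {i₁ : Fin (k + 1)} {N ρ q x : ℕ} {d : Dts F}
    {p : ℕ → ℕ → ℕ} {A : F.Ω → Prop} (hq : IsLaw (Qa F A)) (a₀ j : ℕ) :
    0 ≤ dft F i₁ N ρ q x d p A a₀ j := by
  unfold dft
  have e : (a₀ + (j + 1) * x + 2) * (J / N) = (a₀ + j * x + 2) * (J / N) + x * (J / N) := by ring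
  rw [e]
  have h := tdg_le hq i₁ F.x ((a₀ + j * x + 2) * (J / N)) (x * (J / N))
    (fun ω => ((fun i : Fin (j + 1) => st F i₁ N ρ q d (p (a₀ + i * x) (a₀ + i * x))
        (a₀ + i * x) ω), F.W ω)) (by
    intro ω ω' _ _ h
    have h1 := congrFun (Prod.ext_iff.1 h).1 (Fin.last j)
    exact st_tdg F i₁ N ρ q d _ _ h1)
  unfold tpx
  linarith

theorem dft_le {F : Fam (k + 1) J} {i₁ : Fin (k + 1)} {N ρ q x : ℕ} {d : Dts F}
    {p : ℕ → ℕ → ℕ} {A : F.Ω → Prop} (hq : IsLaw (Qa F A)) (a₀ j : ℕ) :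
    k * ((x * (J / N) : ℕ) : ℝ) * Real.log 2 - dft F i₁ N ρ q x d p A a₀ j ≤
      CH (Qa F A) (tpx F i₁ ((a₀ + j * x + 2) * (J / N) + x * (J / N)))
        (fun ω => (st F i₁ N ρ q d (p (a₀ + j * x) (a₀ + j * x)) (a₀ + j * x) ω, F.W ω)) := by
  unfold dft
  have e : (a₀ + (j + 1) * x + 2) * (J / N) = (a₀ + j * x + 2) * (J / N) + x * (J / N) := by ring
  rw [e, sub_sub_cancel]
  refine CH_mono_cond hq.nonneg ?_
  intro ω ω' _ _ h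
  have h1 := congrFun (Prod.ext_iff.1 h).1 (Fin.last j)
  exact Prod.ext h1 (Prod.ext_iff.1 h).2

/-- From the record to the context. -/
theorem h3_pure {Ω S₁ S₂ S₃ S₄ S₅ : Type} [Fintype Ω] {p : Ω → ℝ} (hp : ∀ ω, 0 ≤ p ω)
    (T : Ω → S₁) (Y : Ω → S₂) (C : Ω → S₃) (R : Ω → S₄) (W : Ω → S₅) {a b : ℝ}
    (h1 : CH p T (fun ω => (Y ω, (C ω, W ω))) ≤ a) (h2 : CH p C (fun ω => (R ω, W ω)) ≤ b) :
    CH p T (fun ω => (R ω, W ω)) - a - b ≤ CH p Y (fun ω => (C ω, (R ω, W ω))) := by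
  have h3 := CH_le_add hp T C (fun ω => (R ω, W ω))
  have h4 := CH_le_add hp T Y (fun ω => (C ω, (R ω, W ω)))
  have h5 : CH p T (fun ω => (Y ω, (C ω, (R ω, W ω)))) ≤ CH p T (fun ω => (Y ω, (C ω, W ω))) :=
    CH_mono_cond hp fun ω ω' _ _ h => by
      simp only [Prod.mk.injEq] at h ⊢
      tauto
  linarith

/-! ### The statement of the critical step -/

/-- The conclusion of `CORE`, for given constants. -/
def CoreC (k K : ℕ) (C₀ c ε κ₂ κ π₀ ι ε₀ C₁ : ℝ) (j₀ X₀ : ℕ) : Prop :=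
  ∀ (J : ℕ) (F : Fam (k + 1) J) (i₁ : Fin (k + 1)) (a w q P e X : ℕ)
        (H : Sl F → MvPolynomial (Fin (k + 1)) ℝ) (Gf : F.Ω → MvPolynomial (Fin (k + 1)) ℝ)
        (p : F.Ω → ℝ), X₀ ≤ X → IsLaw p → w ≤ J → a + X ≤ q + w →
        (∀ ω, 0 < p ω → (Gf ω).totalDegree ≤ K ∧
          (∀ z : Fin (k + 1) → ℝ, (∀ i, 0 ≤ z i ∧ z i ≤ 1) → z i₁ = F.tw w ω →
            |2 ^ e * (MvPolynomial.eval z (SLO.plb F i₁ a w q ω (Gf ω)) -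
              MvPolynomial.eval z (SLO.Rc F i₁ a w q K P H ω))| ≤ C₀) ∧
          |F.x ω i₁ - MvPolynomial.eval (bp F i₁ ω) (Gf ω)| ≤ 1 / 2 ^ (e + X)) →
        (∀ ω ω', 0 < p ω → 0 < p ω' → slam F w ω = slam F w ω' → F.W ω = F.W ω' →
          Gf ω = Gf ω') →
        -- most lines have bounded numbers
        Pr p {ω | ∃ i < K, 1 < |(SLO.cl F i₁ a w q K P e H ω).coeff (i + 1)|} ≤ ι →
        -- (H1)
        MI p F.W (slam F w) (SLO.ctx F i₁ a w q P H) ≤ ι * X →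
        CH p (SLO.shd F i₁ a w q K P e X H Gf)
          (fun ω => (SLO.ctx F i₁ a w q P H ω, F.W ω)) ≤ ι * X →
        (1 - ι) * X * Real.log 2 ≤ CH p (fun ω => ⌊(2 : ℝ) ^ X * F.tw w ω⌋) (slam F w) →
        j₀ * Real.log 2 - ε₀ ≤ CH p (fun ω => ⌊(2 : ℝ) ^ j₀ * F.tw w ω⌋) (slam F w) →
        -- (H2)
        MI p (fun ω => ⌊(2 : ℝ) ^ X * SLO.nuw F i₁ a w q K P e H Gf ω⌋)
          (fun ω => ((fun j => ⌊(2 : ℝ) ^ X * SLO.yt F i₁ a w ω j⌋ : Fin k → ℤ),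
            (fun i => ⌊(2 : ℝ) ^ X * (SLO.cl F i₁ a w q K P e H ω).coeff (i.val + 1)⌋ :
              Fin K → ℤ)))
          (fun ω => (SLO.ctx F i₁ a w q P H ω, F.W ω)) ≤ ι * X →
        -- (H3)
        (k - ι) * X * Real.log 2 ≤ CH p (fun ω => (fun j => ⌊(2 : ℝ) ^ X *
          SLO.yt F i₁ a w ω j⌋ : Fin k → ℤ)) (SLO.ctx F i₁ a w q P H) →
        -- (H5)
        (∀ r h : ℕ, κ * X ≤ h → r + h ≤ X → ∀ E : Set F.Ω, π₀ ≤ Pr p E →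
          CH (Pool.Agent.H49.Ent.cond p (fun ω => ω ∈ E) True)
            (fun ω => ⌊(2 : ℝ) ^ (r + h) * SLO.nuw F i₁ a w q K P e H Gf ω⌋)
            (fun ω => (⌊(2 : ℝ) ^ r * SLO.nuw F i₁ a w q K P e H Gf ω⌋,
              (SLO.ctx F i₁ a w q P H ω, F.W ω))) ≤ (1 - c) * h * Real.log 2) →
        ∃ Rr : Sl F → Fin (K + 1) → M5.Mon k K → ℝ, (∀ l i al, |Rr l i al| ≤ C₁) ∧
          Pr p {ω | ∃ al, (2 : ℝ) ^ (-(κ₂ * X)) < |SLO.shw F i₁ a w q K P e H Gf ω al -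
            ∑ i, Rr (slam F w ω) i al * F.tw w ω ^ (i : ℕ)|} ≤ ε

theorem core_iff (k : ℕ) : CORE k ↔ ∀ (K : ℕ) (C₀ c ε : ℝ), 1 ≤ K → 1 ≤ C₀ → 0 < c → c ≤ 1 →
    0 < ε → ∃ (κ₂ κ π₀ ι ε₀ C₁ : ℝ) (j₀ X₀ : ℕ), 0 < κ₂ ∧ κ₂ ≤ 1 ∧ 0 < κ ∧ κ ≤ 1 ∧ 0 < π₀ ∧
      0 < ι ∧ 0 < ε₀ ∧ CoreC k K C₀ c ε κ₂ κ π₀ ι ε₀ C₁ j₀ X₀ := Iff.rfl

/-! ### The facts for one family -/

/-- The precisions. -/
noncomputable abbrev pT (F : Fam (k + 1) J) (i₁ : Fin (k + 1)) (N ρ K : ℕ) (A : F.Ω → Prop) :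
    ℕ → ℕ → ℕ := fun a w => thrT F i₁ N ρ K A a w - 1

/-- The numbers of the lines. -/
def FLin (F : Fam (k + 1) J) (i₁ : Fin (k + 1)) (N ρ K q : ℕ) (ι : ℝ) (A : F.Ω → Prop)
    (d : Dts F) : Prop :=
  ∀ R ≤ N, ∀ a ≤ N, ∀ w ≤ N, w ≤ a → a ≤ ρ → 1 ≤ R → a + 3 ≤ w + q →
    R ≤ pT F i₁ N ρ K A a w → ∀ v : ℕ, w * (J / N) ≤ v → v ≤ a * (J / N) →
    Pr (Qa F A) {ω | ∃ i < K, 1 < |(lp F i₁ N K q d R a v ω).coeff (i + 1)|} ≤ ι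

/-- The sums of the defects. -/
def FMkf (F : Fam (k + 1) J) (i₁ : Fin (k + 1)) (N ρ K q x : ℕ) (DM : ℝ) (A : F.Ω → Prop)
    (d : Dts F) : Prop :=
  ∀ a₀ < x, ∀ n ≤ N, a₀ + n * x + 2 ≤ ρ →
    ∑ j ∈ range n, dft F i₁ N ρ q x d (pT F i₁ N ρ K A) A a₀ j ≤ DM

/-- The digits of the shape. -/
def FShd (F : Fam (k + 1) J) (i₁ : Fin (k + 1)) (N ρ K q x L B : ℕ) (c ι : ℝ)
    (A : F.Ω → Prop) (d : Dts F) : Prop :=
  ∀ R ≤ N, ∀ a ≤ N, ∀ w ≤ N, w ≤ a → a ≤ R + 3 → a ≤ ρ → a + 3 + x ≤ w + q →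
    R + B * L ≤ ρ → GC F c N L B R A → Gap (pT F i₁ N ρ K A) R (B * L) a →
    R ≤ pT F i₁ N ρ K A a w → ∀ v : ℕ, w * (J / N) ≤ v → v ≤ a * (J / N) →
    CH (Qa F A) (shx F i₁ N ρ K q d R a v (x * (J / N)))
      (fun ω => (cx F i₁ N q d R a v ω, F.W ω)) ≤ ι * ((x * (J / N) : ℕ) : ℝ)

/-- The rows are not full. -/
def FH5 (F : Fam (k + 1) J) (i₁ : Fin (k + 1)) (N ρ K q x L B : ℕ) (c κ π₀ : ℝ)
    (A : F.Ω → Prop) (d : Dts F) : Prop :=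
  ∀ R ≤ N, ∀ a ≤ N, ∀ w ≤ N, w ≤ a → a ≤ R + 3 → a ≤ ρ → a + 3 + x ≤ w + q →
    R + B * L ≤ ρ → GC F c N L B R A → Gap (pT F i₁ N ρ K A) R (B * L) a →
    R ≤ pT F i₁ N ρ K A a w → ∀ v : ℕ, w * (J / N) ≤ v → v ≤ a * (J / N) →
    ∀ r h : ℕ, κ * ((x * (J / N) : ℕ) : ℝ) ≤ h → r + h ≤ x * (J / N) →
      ∀ E : Set F.Ω, π₀ ≤ Pr (Qa F A) E →
        CH (Pool.Agent.H49.Ent.cond (Qa F A) (fun ω => ω ∈ E) True)
          (nud F i₁ N ρ K q d R a v (r + h))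
          (fun ω => (nud F i₁ N ρ K q d R a v r ω, (cx F i₁ N q d R a v ω, F.W ω))) ≤
          (1 - c / 2) * h * Real.log 2

/-- One step of the chain. -/
def FH2 (F : Fam (k + 1) J) (i₁ : Fin (k + 1)) (N ρ K q x L B : ℕ) (c ε₂ : ℝ)
    (A : F.Ω → Prop) (d : Dts F) : Prop :=
  ∀ R ≤ N, ∀ a ≤ N, ∀ w ≤ N, ∀ a' ≤ N, ∀ w' ≤ N, w' ≤ w → w ≤ a → a ≤ a' → a' ≤ R + 3 →
    a' ≤ ρ → a' + 3 + x ≤ w' + q → R + B * L ≤ ρ → GC F c N L B R A →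
    Gap (pT F i₁ N ρ K A) R (B * L) a → R ≤ pT F i₁ N ρ K A a w → R ≤ pT F i₁ N ρ K A a' w' →
    ∀ v v' X' : ℕ, X' = x * (J / N) → w * (J / N) ≤ v → w' * (J / N) ≤ v' →
      v' + X' ≤ v → v ≤ a * (J / N) →
      MI (Qa F A) (nud F i₁ N ρ K q d R a v X')
        (fun ω => (yx F i₁ N a v X' ω, cdg F i₁ N K q d R a v X' ω))
        (fun ω => (cx F i₁ N q d R a v ω, F.W ω)) ≤
        CH (Qa F A) (nud F i₁ N ρ K q d R a v X') (fun ω => (cx F i₁ N q d R a v ω, F.W ω)) -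
        CH (Qa F A) (nud F i₁ N ρ K q d R a' v' X')
          (fun ω => (cx F i₁ N q d R a' v' ω, F.W ω)) +
        (k * (X' : ℝ) * Real.log 2 - CH (Qa F A) (yx F i₁ N a' v' X')
          (fun ω => (cx F i₁ N q d R a' v' ω,
            (st F i₁ N ρ q d (pT F i₁ N ρ K A a' a') a' ω, F.W ω)))) +
        ε₂ * ((((a' - a) + x) * (J / N) : ℕ) : ℝ)

/-- The context is visible. -/
def FVis (F : Fam (k + 1) J) (i₁ : Fin (k + 1)) (N ρ K q L : ℕ) (c EV : ℝ)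
    (A : F.Ω → Prop) (d : Dts F) : Prop :=
  ∀ R ≤ N, ∀ a ≤ N, ∀ w ≤ N, w ≤ a → a ≤ R + 3 → a ≤ ρ → a + 3 ≤ w + q → L ≤ R →
    R + L ≤ ρ → Zr F c N (R - L) R A → Gap (pT F i₁ N ρ K A) R L a →
    R ≤ pT F i₁ N ρ K A a w → ∀ v : ℕ, w * (J / N) ≤ v → v ≤ a * (J / N) →
    CH (Qa F A) (cx F i₁ N q d R a v)
      (fun ω => (st F i₁ N ρ q d (pT F i₁ N ρ K A a a) a ω, F.W ω)) ≤ EV

/-- The production. -/
def FFin (F : Fam (k + 1) J) (i₁ : Fin (k + 1)) (N ρ K q L : ℕ) (C₁ : ℝ)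
    (A : F.Ω → Prop) (d : Dts F) : Prop :=
  ∀ R ≤ N, ∀ a ≤ N, ∀ w ≤ N, w ≤ a → a ≤ R + 3 → a + L ≤ ρ →
    a + 3 + (K + 1) * L ≤ w + q → 1 ≤ R → R + (K + 1) * L ≤ ρ → R ≤ pT F i₁ N ρ K A a w →
    R + (K + 1) * L ≤ pT F i₁ N ρ K A a a →
    ∀ v : ℕ, w * (J / N) ≤ v → v ≤ (w + 1) * (J / N) → v ≤ a * (J / N) →
      ∀ Rr : Sl F → Fin (K + 1) → M5.Mon k K → ℝ, (∀ l i al, |Rr l i al| ≤ C₁) →
      Pr (Qa F A) {ω | ∃ al, 1 / (2 : ℝ) ^ ((K + 1) * L * (J / N)) <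
        |sh F i₁ N ρ K q d R a v ω al - ∑ i, Rr (slam F v ω) i al * F.tw v ω ^ (i : ℕ)|} ≤
        1 / 8 →
      Tb F i₁ (ρ * (J / N)) K ((a + L) * (J / N)) ((w + L) * (J / N))
        ((R + 1 + K * L) * (J / N)) A

/-- The position at the time of the sample. -/
def FYdg (F : Fam (k + 1) J) (i₁ : Fin (k + 1)) (N q x : ℕ) (CY : ℝ)
    (A : F.Ω → Prop) (d : Dts F) : Prop :=
  ∀ R a v : ℕ, v ≤ J → (a + 2) * (J / N) + x * (J / N) ≤ q * (J / N) + v →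
    CH (Qa F A) (tpx F i₁ ((a + 2) * (J / N) + x * (J / N)))
      (fun ω => (yx F i₁ N a v (x * (J / N)) ω, (cx F i₁ N q d R a v ω, F.W ω))) ≤ CY

/-- The facts for one family. -/
structure Fct (F : Fam (k + 1) J) (i₁ : Fin (k + 1)) (N ρ K q x L B : ℕ)
    (c ι κ π₀ ε₂ C₁ CY EV e₁ DM : ℝ) (A : F.Ω → Prop) (d : Dts F) : Prop where
  law : IsLaw (Qa F A)
  tim : (J : ℝ) * Real.log 2 - e₁ ≤ CH (Qa F A) F.T (fun ω => (F.l ω, F.Z ω))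
  ok : d.OK i₁ N ρ K (pT F i₁ N ρ K A) A
  lin : FLin F i₁ N ρ K q ι A d
  mkf : FMkf F i₁ N ρ K q x DM A d
  ydg : FYdg F i₁ N q x CY A d
  shd : FShd F i₁ N ρ K q x L B c ι A d
  h5 : FH5 F i₁ N ρ K q x L B c κ π₀ A d
  h2 : FH2 F i₁ N ρ K q x L B c ε₂ A d
  vis : FVis F i₁ N ρ K q L c EV A d
  fin : FFin F i₁ N ρ K q L C₁ A d

/-- The numerical conditions for one pair. -/
structure Par (J N ρ K q x L B Q : ℕ) (κ₂ ι ε₀ e₁ : ℝ) (j₀ X₀ : ℕ) : Prop where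
  hN : 0 < N
  hK : 1 ≤ K
  hJ : N ≤ J
  hρ : ρ ≤ N
  hL : 1 ≤ L
  hx : 1 ≤ x
  hxB : x + 4 ≤ B * L
  hKB : (K + 2) * L ≤ B * L
  hE : (((K + 1) * L : ℕ) : ℝ) ≤ κ₂ * x
  hKx : (K + 1) * L ≤ x
  hq : q = N / Q + x + 5
  hQ : 0 < Q
  hX₀ : X₀ ≤ J / N
  hj₀ : j₀ ≤ J / N
  ht : e₁ ≤ ι * ((x * (J / N) : ℕ) : ℝ)
  ht2 : e₁ ≤ ι * ((x * (J / N) : ℕ) : ℝ) * Real.log 2
  hal : (j₀ : ℝ) * e₁ ≤ ε₀ * ((J / N : ℕ) : ℝ)

end Pool.SLF
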