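import Pool.Agent.H71.SLP.Pair

/-!
# The slope law on families: one pair, one step of the chain of windows (II)
-/

set_option autoImplicit false

namespace Pool.SLF

open Finset Real MvPolynomial
open Pool.Agent.H49.Ent Pool.Agent.H32.Dense Pool.STK Pool.KA Pool.KSAT Pool.K2S Pool.PB
open Pool.KAF
open Pool.KVA (MI)

variable {k J : ℕ}

/-- A pair `(R, w)` with the radius `a`, not exceptional. -/
structure Gp (F : Fam (k + 1) J) (i₁ : Fin (k + 1)) (N ρ K L B Q : ℕ) (c : ℝ) (A : F.Ω → Prop)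
    (R w a : ℕ) : Prop where
  wa : w < a
  aR : a ≤ R + 2
  aL : a + L ≤ ρ
  Rρ : R + B * L ≤ ρ
  gc : GC F c N L B R A
  aq : Q * (a - w) ≤ N
  Rp : R ≤ pT F i₁ N ρ K A a w
  gap : Gap (pT F i₁ N ρ K A) R (B * L) a

section

variable {F : Fam (k + 1) J} {i₁ : Fin (k + 1)} {N ρ K q x L B Q : ℕ}
  {c κ₂ ι κ π₀ ε₀ ε₂ C₁ CY EV e₁ DM : ℝ} {j₀ X₀ : ℕ} {A : F.Ω → Prop} {d : Dts F}
  {R w a v : ℕ}

theorem u_pos (P : Par J N ρ K q x L B Q κ₂ ι ε₀ e₁ j₀ X₀) : 1 ≤ J / N :=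
  Nat.div_pos P.hJ P.hN

theorem Gp.hq (g : Gp F i₁ N ρ K L B Q c A R w a)
    (P : Par J N ρ K q x L B Q κ₂ ι ε₀ e₁ j₀ X₀) : a + 5 + x ≤ w + q := by
  have h1 : a - w ≤ N / Q := (Nat.le_div_iff_mul_le P.hQ).2 (by
    rw [mul_comm]
    exact g.aq)
  have h2 := P.hq
  have h3 := g.wa
  omega

theorem Gp.bd (g : Gp F i₁ N ρ K L B Q c A R w a)
    (P : Par J N ρ K q x L B Q κ₂ ι ε₀ e₁ j₀ X₀) :
    R ≤ N ∧ a ≤ N ∧ w ≤ N ∧ a ≤ ρ ∧ 1 ≤ R ∧ L ≤ R ∧ R + L ≤ ρ ∧ a + x + 2 ≤ ρ ∧ 1 ≤ B ∧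
      w + 1 + x ≤ N ∧ w + 2 ≤ N := by
  have h1 := P.hρ
  have h2 := P.hxB
  have h3 := g.wa
  have h4 := g.aR
  have h5 := g.aL
  have h6 := g.Rρ
  have h7 := g.gc.1
  have h8 := P.hL
  have h9 : 1 ≤ B := by
    by_contra hcon
    have : B = 0 := by omega
    rw [this, Nat.zero_mul] at h2
    omega
  have h10 : L ≤ B * L := Nat.le_mul_of_pos_left L h9
  refine ⟨by omega, by omega, by omega, by omega, by omega, by omega, by omega, by omega, h9,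
    by omega, by omega⟩

theorem Gap.mono' {p : ℕ → ℕ → ℕ} (hd : d.OK i₁ N ρ K p A) {s s' : ℕ} (h : Gap p R s a)
    (hs : s' ≤ s) (ha : a ≤ ρ) : Gap p R s' a :=
  ⟨hs.trans h.1, (Nat.add_le_add_left hs R).trans (h.2.trans (hd.mo _ _ _ _
    (Nat.sub_le_sub_left hs a) ((Nat.sub_le _ _).trans ha) (Nat.sub_le_sub_left hs a) le_rfl))⟩

/-- **(H3)**: the position in the cell is full given the context and the record. -/
theorem h3_low (fc : Fct F i₁ N ρ K q x L B c ι κ π₀ ε₂ C₁ CY EV e₁ DM A d)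
    (P : Par J N ρ K q x L B Q κ₂ ι ε₀ e₁ j₀ X₀) (g : Gp F i₁ N ρ K L B Q c A R w a)
    (h1 : w * (J / N) ≤ v) (h2 : v ≤ a * (J / N)) {t : ℝ}
    (ht : dft F i₁ N ρ q x d (pT F i₁ N ρ K A) A (a % x) (a / x) ≤ t) :
    k * ((x * (J / N) : ℕ) : ℝ) * Real.log 2 - CH (Qa F A) (yx F i₁ N a v (x * (J / N)))
      (fun ω => (cx F i₁ N q d R a v ω,
        (st F i₁ N ρ q d (pT F i₁ N ρ K A a a) a ω, F.W ω))) ≤ t + CY + EV := by
  obtain ⟨b1, b2, b3, b4, b5, b6, b7, b8, b9, b10, b11⟩ := g.bd P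
  have hq := g.hq P
  have hu := u_pos P
  have haJ : a * (J / N) ≤ J := (Nat.mul_le_mul_right _ b2).trans (Nat.mul_div_le J N)
  have e : a % x + a / x * x = a := by
    rw [mul_comm]
    exact Nat.mod_add_div a x
  have k1 := dft_le (F := F) (i₁ := i₁) (N := N) (ρ := ρ) (q := q) (x := x) (d := d)
    (p := pT F i₁ N ρ K A) (A := A) fc.law (a % x) (a / x)
  rw [e] at k1
  have k2 := fc.ydg R a v (h2.trans haJ) (by
    have : (a + 2 + x) * (J / N) ≤ (w + q) * (J / N) := Nat.mul_le_mul_right _ (by omega)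
    calc (a + 2) * (J / N) + x * (J / N) = (a + 2 + x) * (J / N) := by ring
      _ ≤ (w + q) * (J / N) := this
      _ = q * (J / N) + w * (J / N) := by ring
      _ ≤ q * (J / N) + v := by omega)
  have hZr : Zr F c N (R - L) R A := by
    have h3 := g.gc.2 (B - 1) (by omega)
    have e1 : R + (B - 1) * L - B * L = R - L := by
      have : B * L = (B - 1) * L + L := by
        obtain ⟨B', rfl⟩ : ∃ B', B = B' + 1 := ⟨B - 1, by omega⟩
        rw [Nat.add_sub_cancel]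
        ring
      omega
    have e2 : R + (B - 1 + 1) * L - B * L = R := by
      rw [show B - 1 + 1 = B by omega]
      omega
    rwa [e1, e2] at h3
  have hLB : L ≤ B * L := Nat.le_mul_of_pos_left L b9
  have k3 := fc.vis R b1 a b2 w b3 g.wa.le (by have := g.aR; omega) b4 (by omega) b6 b7 hZr
    (Gap.mono' fc.ok g.gap hLB b4) g.Rp v h1 h2
  have k4 := h3_pure fc.law.nonneg _ _ _ _ _ k2 k3
  linarith

/-- The context digits and the record. -/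
theorem H3_cx (fc : Fct F i₁ N ρ K q x L B c ι κ π₀ ε₂ C₁ CY EV e₁ DM A d)
    (P : Par J N ρ K q x L B Q κ₂ ι ε₀ e₁ j₀ X₀) (g : Gp F i₁ N ρ K L B Q c A R w a)
    (h1 : w * (J / N) ≤ v) (h2 : v ≤ a * (J / N)) {t : ℝ}
    (ht : dft F i₁ N ρ q x d (pT F i₁ N ρ K A) A (a % x) (a / x) ≤ t) :
    k * ((x * (J / N) : ℕ) : ℝ) * Real.log 2 - (t + CY + EV) ≤
      CH (Qa F A) (yx F i₁ N a v (x * (J / N))) (cx F i₁ N q d R a v) := by
  have h3 := h3_low fc P g h1 h2 ht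
  have h4 : CH (Qa F A) (yx F i₁ N a v (x * (J / N)))
      (fun ω => (cx F i₁ N q d R a v ω,
        (st F i₁ N ρ q d (pT F i₁ N ρ K A a a) a ω, F.W ω))) ≤
      CH (Qa F A) (yx F i₁ N a v (x * (J / N))) (cx F i₁ N q d R a v) :=
    CH_mono_cond fc.law.nonneg fun ω ω' _ _ h => (Prod.ext_iff.1 h).1
  linarith

/-- **One pair**: if the mutual information is small, there is a label on the smaller tube. -/
theorem pair_core (hC : CoreC k K (C0 k K) (c / 2) (1 / 8) κ₂ κ π₀ ι ε₀ C₁ j₀ X₀)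
    (fc : Fct F i₁ N ρ K q x L B c ι κ π₀ ε₂ C₁ CY EV e₁ DM A d)
    (P : Par J N ρ K q x L B Q κ₂ ι ε₀ e₁ j₀ X₀) (g : Gp F i₁ N ρ K L B Q c A R w a)
    (h1 : w * (J / N) ≤ v) (h2 : v < (w + 1) * (J / N))
    (hal : (j₀ : ℝ) * Real.log 2 - ε₀ ≤
      CH (Qa F A) (fun ω => ⌊(2 : ℝ) ^ j₀ * F.tw v ω⌋) (slam F v)) {t : ℝ}
    (ht : dft F i₁ N ρ q x d (pT F i₁ N ρ K A) A (a % x) (a / x) ≤ t)
    (ht2 : t + CY + EV ≤ ι * ((x * (J / N) : ℕ) : ℝ) * Real.log 2)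
    (hMI : MI (Qa F A) (nud F i₁ N ρ K q d R a v (x * (J / N)))
        (fun ω => (yx F i₁ N a v (x * (J / N)) ω, cdg F i₁ N K q d R a v (x * (J / N)) ω))
        (fun ω => (cx F i₁ N q d R a v ω, F.W ω)) ≤ ι * ((x * (J / N) : ℕ) : ℝ)) :
    Tb F i₁ (ρ * (J / N)) K ((a + L) * (J / N)) ((w + L) * (J / N))
        ((R + 1 + K * L) * (J / N)) A := by
  obtain ⟨b1, b2, b3, b4, b5, b6, b7, b8, b9, b10, b11⟩ := g.bd P
  have hq := g.hq P
  have hu := u_pos P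
  have hw1 : (w + 1) * (J / N) ≤ a * (J / N) := Nat.mul_le_mul_right _ g.wa
  have h3 : v ≤ a * (J / N) := h2.le.trans hw1
  have haJ : a * (J / N) ≤ J := (Nat.mul_le_mul_right _ b2).trans (Nat.mul_div_le J N)
  have hvJ : v ≤ J := h3.trans haJ
  have hvX : v + x * (J / N) ≤ J := by
    have : (w + 1 + x) * (J / N) ≤ J :=
      (Nat.mul_le_mul_right _ b10).trans (Nat.mul_div_le J N)
    have e : (w + 1 + x) * (J / N) = (w + 1) * (J / N) + x * (J / N) := by ring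
    omega
  have hqv : (a + 2) * (J / N) + x * (J / N) ≤ q * (J / N) + v := by
    have : (a + 2 + x) * (J / N) ≤ (w + q) * (J / N) := Nat.mul_le_mul_right _ (by omega)
    calc (a + 2) * (J / N) + x * (J / N) = (a + 2 + x) * (J / N) := by ring
      _ ≤ (w + q) * (J / N) := this
      _ = q * (J / N) + w * (J / N) := by ring
      _ ≤ q * (J / N) + v := by omega
  have haR : a ≤ R + 3 := by have := g.aR; omega
  have hpa : R + B * L ≤ pT F i₁ N ρ K A a a := by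
    refine g.gap.2.trans (fc.ok.mo _ _ _ _ (Nat.sub_le _ _) b4 (Nat.sub_le _ _) le_rfl)
  have hxu : J / N ≤ x * (J / N) := Nat.le_mul_of_pos_left _ P.hx
  obtain ⟨Rr, hR1, hR2⟩ := hC J F i₁ ((a + 2) * (J / N)) v (q * (J / N)) (R * (J / N))
    ((R - 1) * (J / N)) (x * (J / N)) (d.H a v) (own F N ρ d a) (Qa F A)
    (P.hX₀.trans hxu) fc.law hvJ hqv (by
      intro ω hω
      have hA := Qa_sup F A ω hω
      refine ⟨fc.ok.dG _ _, ?_, ?_⟩
      · intro z hz hz1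
        exact slice fc.ok hu b4 g.wa.le g.Rp h1 h3 hvJ (by omega) hA hz hz1
      · refine (fc.ok.on a b4 ω hA).trans ?_
        refine one_div_le_one_div_of_le (by positivity) (pow_le_pow_right₀ (by norm_num) ?_)
        rw [← add_mul]
        refine Nat.mul_le_mul_right _ ?_
        have := P.hxB
        omega)
    (fun ω ω' _ _ h h' => own_det F N ρ d a v h h')
    (fc.lin R b1 a b2 w b3 g.wa.le b4 b5 (by omega) g.Rp v h1 h3)
    ((H1_MI fc.law fc.tim hvJ i₁ _ _ _ _).trans P.ht)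
    (fc.shd R b1 a b2 w b3 g.wa.le haR b4 (by omega) g.Rρ g.gc g.gap g.Rp v h1 h3) (by
      have h4 := Pool.Agent.H25.M5.h1_full fc.tim fc.law hvX
      have h5 := P.ht2
      linarith) hal hMI (by
      have h4 := H3_cx fc P g h1 h3 ht
      refine le_trans ?_ h4
      linarith)
    (fc.h5 R b1 a b2 w b3 g.wa.le haR b4 (by omega) g.Rρ g.gc g.gap g.Rp v h1 h3)
  have hKB := P.hKB
  have eKB : (K + 2) * L = (K + 1) * L + L := by ring
  refine fc.fin R b1 a b2 w b3 g.wa.le haR g.aL (by have := P.hKx; omega) b5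
    (by have := g.Rρ; omega) g.Rp (by omega) v h1 h2.le h3 Rr hR1 (le_trans ?_ hR2)
  refine Pr_mono fc.law.nonneg ?_
  rintro ω - ⟨al, hal⟩
  refine ⟨al, lt_of_le_of_lt ?_ hal⟩
  rw [Real.rpow_neg (by norm_num), ← one_div]
  refine one_div_le_one_div_of_le (by positivity) ?_
  rw [← Real.rpow_natCast]
  refine Real.rpow_le_rpow_of_exponent_le (by norm_num) ?_
  push_cast
  have h6 := P.hE
  push_cast at h6
  have hu0 : (0 : ℝ) ≤ ((J / N : ℕ) : ℝ) := Nat.cast_nonneg _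
  calc ((K : ℝ) + 1) * L * ((J / N : ℕ) : ℝ) ≤ κ₂ * x * ((J / N : ℕ) : ℝ) :=
        mul_le_mul_of_nonneg_right h6 hu0
    _ = κ₂ * (x * ((J / N : ℕ) : ℝ)) := by ring

/-- The potential. -/
noncomputable def pot (F : Fam (k + 1) J) (i₁ : Fin (k + 1)) (N ρ K q x : ℕ) (d : Dts F)
    (A : F.Ω → Prop) (R a v : ℕ) : ℝ :=
  CH (Qa F A) (nud F i₁ N ρ K q d R a v (x * (J / N))) (fun ω => (cx F i₁ N q d R a v ω, F.W ω))

/-- **One step of the chain.** -/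
theorem chain_step (fc : Fct F i₁ N ρ K q x L B c ι κ π₀ ε₂ C₁ CY EV e₁ DM A d)
    (P : Par J N ρ K q x L B Q κ₂ ι ε₀ e₁ j₀ X₀) (g : Gp F i₁ N ρ K L B Q c A R w a)
    {w' a' v' : ℕ} (g' : Gp F i₁ N ρ K L B Q c A R w' a')
    (hw : w' + (x + 1) ≤ w) (ha : a ≤ a') (h1 : w * (J / N) ≤ v) (h2 : v < (w + 1) * (J / N))
    (h1' : w' * (J / N) ≤ v') (h2' : v' < (w' + 1) * (J / N)) {t : ℝ}
    (ht : dft F i₁ N ρ q x d (pT F i₁ N ρ K A) A (a' % x) (a' / x) ≤ t)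
    (ht2 : t + CY + EV + ε₂ * ((x * (J / N) : ℕ) : ℝ) ≤ ι / 2 * ((x * (J / N) : ℕ) : ℝ))
    (hMI : ι * ((x * (J / N) : ℕ) : ℝ) < MI (Qa F A) (nud F i₁ N ρ K q d R a v (x * (J / N)))
        (fun ω => (yx F i₁ N a v (x * (J / N)) ω, cdg F i₁ N K q d R a v (x * (J / N)) ω))
        (fun ω => (cx F i₁ N q d R a v ω, F.W ω))) :
    ι / 2 * ((x * (J / N) : ℕ) : ℝ) ≤
      (pot F i₁ N ρ K q x d A R a v - ε₂ * ((J / N : ℕ) : ℝ) * a) -
        (pot F i₁ N ρ K q x d A R a' v' - ε₂ * ((J / N : ℕ) : ℝ) * a') := by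
  obtain ⟨b1, b2, b3, b4, b5, b6, b7, b8, b9, b10, b11⟩ := g.bd P
  obtain ⟨c1, c2, c3, c4, c5, c6, c7, c8, c9, c10, c11⟩ := g'.bd P
  have hq := g.hq P
  have hq' := g'.hq P
  have hw1 : (w + 1) * (J / N) ≤ a * (J / N) := Nat.mul_le_mul_right _ g.wa
  have hw1' : (w' + 1) * (J / N) ≤ a' * (J / N) := Nat.mul_le_mul_right _ g'.wa
  have h3 := h3_low fc P g' h1' (h2'.le.trans hw1') ht
  have h4 := fc.h2 R b1 a b2 w b3 a' c2 w' c3 (by omega) g.wa.le ha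
    (by have := g'.aR; omega) c4 (by omega) g.Rρ g.gc g.gap g.Rp g'.Rp v v' (x * (J / N)) rfl
    h1 h1' (by
      have h5 : (w' + (x + 1)) * (J / N) ≤ w * (J / N) := Nat.mul_le_mul_right _ hw
      have e : (w' + (x + 1)) * (J / N) = (w' + 1) * (J / N) + x * (J / N) := by ring
      omega) (h2.le.trans hw1)
  have e : ((((a' - a) + x) * (J / N) : ℕ) : ℝ) =
      ((a' : ℝ) - a) * ((J / N : ℕ) : ℝ) + ((x * (J / N) : ℕ) : ℝ) := by
    push_cast [Nat.cast_sub ha]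
    ring
  rw [e] at h4
  unfold pot
  linarith

/-- Alive windows. -/
theorem alive_win (fc : Fct F i₁ N ρ K q x L B c ι κ π₀ ε₂ C₁ CY EV e₁ DM A d)
    (P : Par J N ρ K q x L B Q κ₂ ι ε₀ e₁ j₀ X₀) (hw : w + 2 ≤ N) :
    ∃ v : ℕ, w * (J / N) ≤ v ∧ v < (w + 1) * (J / N) ∧ (j₀ : ℝ) * Real.log 2 - ε₀ ≤
      CH (Qa F A) (fun ω => ⌊(2 : ℝ) ^ j₀ * F.tw v ω⌋) (slam F v) := by
  have hu := u_pos P
  have h0 : w * (J / N) + J / N + j₀ ≤ J := by
    have h1 : (w + 2) * (J / N) ≤ J := (Nat.mul_le_mul_right _ hw).trans (Nat.mul_div_le J N)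
    have h2 := P.hj₀
    have e : (w + 2) * (J / N) = w * (J / N) + J / N + J / N := by ring
    omega
  obtain ⟨i, hi, h1⟩ := Pool.Agent.H25.M5.alive fc.tim fc.law (w := w * (J / N)) (I := J / N)
    (k := j₀) (by omega) h0
  refine ⟨w * (J / N) + i, by omega, ?_, ?_⟩
  · have e : (w + 1) * (J / N) = w * (J / N) + J / N := by ring
    omega
  · rw [Pool.Agent.H25.M5.ctx_digits fc.law (by omega)]
    refine le_trans ?_ h1
    have hu0 : (0 : ℝ) < ((J / N : ℕ) : ℝ) := by exact_mod_cast hu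
    have h2 : (j₀ : ℝ) * e₁ / ((J / N : ℕ) : ℝ) ≤ ε₀ := by
      rw [div_le_iff₀ hu0]
      exact P.hal
    linarith

end

end Pool.SLF
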