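import Pool.Agent.H71.SLP.Fam

/-!
# The slope law on families: assembly of the modules

`slo_of_rows` proves `SLO S` from the statements of `Pool.Agent.H71.SLP.Stmts`.
-/

set_option autoImplicit false

namespace Pool.SLF

open Finset Real
open Pool.Agent.H49.Ent Pool.Agent.H32.Dense Pool.STK Pool.KA Pool.KSAT Pool.K2S Pool.PB
open Pool.KAF
open Pool.KVA (MI)

variable {k : ℕ}

/-- The constant of the scale. -/
theorem exists_B1 (K C₂ b₁ b₂ b₃ : ℕ) {κ₂ ι : ℝ} (hκ : 0 < κ₂) (hι : 0 < ι) :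
    ∃ B₁ : ℕ, b₁ ≤ B₁ ∧ b₂ ≤ B₁ ∧ b₃ ≤ B₁ ∧
      (K : ℝ) + 1 ≤ κ₂ * B₁ ∧ 16 * (C₂ : ℝ) ≤ ι * B₁ ∧ K + 1 ≤ B₁ := by
  refine ⟨b₁ + b₂ + b₃ + ⌈((K : ℝ) + 1) / κ₂⌉₊ + ⌈16 * (C₂ : ℝ) / ι⌉₊ + K + 1, by omega,
    by omega, by omega, ?_, ?_, by omega⟩
  · have h1 := Nat.le_ceil (((K : ℝ) + 1) / κ₂)
    rw [div_le_iff₀ hκ] at h1
    push_cast
    have h2 : (0 : ℝ) ≤ κ₂ * (b₁ + b₂ + b₃ + ⌈16 * (C₂ : ℝ) / ι⌉₊ + K + 1) := by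
      positivity
    nlinarith only [h1, h2]
  · have h1 := Nat.le_ceil (16 * (C₂ : ℝ) / ι)
    rw [div_le_iff₀ hι] at h1
    push_cast
    have h2 : (0 : ℝ) ≤ ι * (b₁ + b₂ + b₃ + ⌈((K : ℝ) + 1) / κ₂⌉₊ + K + 1) := by
      positivity
    nlinarith only [h1, h2]

/-- The number of blocks. -/
theorem exists_M1 (k B B₁ Q : ℕ) {σ ι ε γ : ℝ} (hσ : 0 < σ) (hι : 0 < ι) (hε : 0 < ε)
    (hγ : 0 < γ) : ∃ M₁ : ℕ, ∀ M : ℕ, M₁ ≤ M →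
      4 * B * (1 + 2 / γ) ≤ M * σ ∧ 384 * (k : ℝ) * B₁ ≤ M * (ι * σ) ∧
      16 * B₁ * Q * (4 / ι + 1) ≤ M * ε ∧ 2 * (B : ℝ) + 3 ≤ M * γ ∧ (Q : ℝ) ≤ M ∧ 0 < M := by
  obtain ⟨M₁, hM₁⟩ := exists_nat_gt (4 * B * (1 + 2 / γ) / σ + 384 * k * B₁ / (ι * σ) +
    16 * B₁ * Q * (4 / ι + 1) / ε + (2 * B + 3) / γ + Q + 1)
  refine ⟨M₁, fun M hM => ?_⟩
  have hMr : (M₁ : ℝ) ≤ M := by exact_mod_cast hM
  have t1 : 0 ≤ 4 * B * (1 + 2 / γ) / σ := by positivity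
  have t2 : 0 ≤ 384 * k * B₁ / (ι * σ) := by positivity
  have t3 : 0 ≤ 16 * B₁ * Q * (4 / ι + 1) / ε := by positivity
  have t4 : 0 ≤ (2 * B + 3) / γ := by positivity
  have t5 : (0 : ℝ) ≤ Q := Nat.cast_nonneg _
  refine ⟨?_, ?_, ?_, ?_, by linarith only [hM₁, hMr, t1, t2, t3, t4], ?_⟩
  · rw [← div_le_iff₀ hσ]
    linarith only [hM₁, hMr, t2, t3, t4]
  · rw [← div_le_iff₀ (by positivity)]
    linarith only [hM₁, hMr, t1, t3, t4]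
  · rw [← div_le_iff₀ hε]
    linarith only [hM₁, hMr, t1, t2, t4]
  · rw [← div_le_iff₀ hγ]
    linarith only [hM₁, hMr, t1, t2, t3]
  · have : (0 : ℝ) < M := by linarith only [hM₁, hMr, t1, t2, t3, t4]
    exact_mod_cast this

/-- The defects of the time. -/
theorem exists_eta {ι ε₀ : ℝ} {x N : ℝ} (j₀ : ℕ) (hι : 0 < ι) (hε₀ : 0 < ε₀) (hx : 0 < x)
    (hN : 0 < N) : ∃ η₃ : ℝ, 0 < η₃ ∧ η₃ * (4 * N) ≤ ι * x ∧ η₃ * (2 * N * (j₀ + 1)) ≤ ε₀ := by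
  have hj : (0 : ℝ) ≤ j₀ := Nat.cast_nonneg _
  refine ⟨min (ι * x / (4 * N)) (ε₀ / (2 * N * (j₀ + 1))), by positivity, ?_, ?_⟩
  · rw [← le_div_iff₀ (by positivity)]
    exact min_le_left _ _
  · rw [← le_div_iff₀ (by positivity)]
    exact min_le_right _ _

/-- The mesh. -/
theorem mesh {J N X₀ : ℕ} (hN : 0 < N) (hJ : N * (X₀ + 2) ≤ J) :
    X₀ + 2 ≤ J / N ∧ N ≤ J ∧ (J : ℝ) ≤ 2 * N * ((J / N : ℕ) : ℝ) := by
  have h0 : X₀ + 2 ≤ J / N := by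
    rw [Nat.le_div_iff_mul_le hN, mul_comm]
    exact hJ
  have hNJ : N ≤ J := by
    refine le_trans ?_ hJ
    exact Nat.le_mul_of_pos_right N (by omega)
  refine ⟨h0, hNJ, ?_⟩
  have h1 : J < (J / N + 1) * N := Nat.lt_mul_of_div_lt (Nat.lt_succ_self _) hN
  have h2 : (J : ℝ) ≤ (((J / N : ℕ) : ℝ) + 1) * N := by exact_mod_cast h1.le
  have h3 : (1 : ℝ) ≤ ((J / N : ℕ) : ℝ) := by exact_mod_cast (by omega : 1 ≤ J / N)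
  have h4 : (0 : ℝ) < N := by exact_mod_cast hN
  nlinarith only [h2, h3]

/-- The numerical conditions. -/
theorem mk_par {J N ρ K q x L B B₁ Q : ℕ} {κ₂ ι ε₀ η₃ : ℝ} {j₀ X₀ : ℕ} (hN : 0 < N)
    (hK : 1 ≤ K) (hJ : N ≤ J) (hρ : ρ ≤ N) (hL : 1 ≤ L) (hx : x = B₁ * L)
    (hB₁ : 0 < B₁) (hB : B₁ + 6 ≤ B) (hBK : K + 2 ≤ B) (hB1κ : (K : ℝ) + 1 ≤ κ₂ * B₁)
    (hB1K : K + 1 ≤ B₁) (hq : q = N / Q + x + 5) (hQ : 0 < Q) (hX₀ : X₀ ≤ J / N)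
    (hj₀ : j₀ ≤ J / N) (hJu : (J : ℝ) ≤ 2 * N * ((J / N : ℕ) : ℝ)) (hι : 0 < ι)
    (hη₃0 : 0 < η₃) (hη₃a : η₃ * (4 * N) ≤ ι * x) (hη₃b : η₃ * (2 * N * (j₀ + 1)) ≤ ε₀) :
    Par J N ρ K q x L B Q κ₂ ι ε₀ (η₃ * J) j₀ X₀ := by
  have hu0 : (0 : ℝ) ≤ ((J / N : ℕ) : ℝ) := Nat.cast_nonneg _
  have hX' : (((x * (J / N) : ℕ)) : ℝ) = x * ((J / N : ℕ) : ℝ) := by push_cast; ring
  have hLr : (1 : ℝ) ≤ L := by exact_mod_cast hL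
  have hxr : (x : ℝ) = B₁ * L := by
    rw [hx]
    push_cast
    ring
  have hη₃J : η₃ * J ≤ ι / 2 * (x * ((J / N : ℕ) : ℝ)) := by
    have h1 : η₃ * J ≤ η₃ * (2 * N * ((J / N : ℕ) : ℝ)) := mul_le_mul_of_nonneg_left hJu hη₃0.le
    have h2 : η₃ * (4 * N) * ((J / N : ℕ) : ℝ) ≤ ι * x * ((J / N : ℕ) : ℝ) :=
      mul_le_mul_of_nonneg_right hη₃a hu0
    linarith only [h1, h2]
  have hlog2 := Num.log2_ge
  have hιx : 0 ≤ ι * (x * ((J / N : ℕ) : ℝ)) := by positivity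
  exact
    { hN := hN
      hK := hK
      hJ := hJ
      hρ := hρ
      hL := hL
      hx := by
        rw [hx]
        exact Nat.mul_pos hB₁ hL
      hxB := by
        have : (B₁ + 6) * L ≤ B * L := Nat.mul_le_mul_right _ hB
        rw [hx]
        have e : (B₁ + 6) * L = B₁ * L + 6 * L := by ring
        omega
      hKB := Nat.mul_le_mul_right _ hBK
      hE := by
        push_cast
        rw [hxr]
        nlinarith only [hB1κ]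
      hKx := by
        rw [hx]
        exact Nat.mul_le_mul_right _ hB1K
      hq := hq
      hQ := hQ
      hX₀ := hX₀
      hj₀ := hj₀
      ht := by
        rw [hX']
        linarith only [hη₃J, hιx]
      ht2 := by
        rw [hX']
        nlinarith only [hη₃J, hlog2, hιx]
      hal := by
        have h1 : (j₀ : ℝ) * (η₃ * J) ≤ j₀ * (η₃ * (2 * N * ((J / N : ℕ) : ℝ))) :=
          mul_le_mul_of_nonneg_left (mul_le_mul_of_nonneg_left hJu hη₃0.le) (Nat.cast_nonneg _)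
        have h2 : η₃ * (2 * N * (j₀ + 1)) * ((J / N : ℕ) : ℝ) ≤ ε₀ * ((J / N : ℕ) : ℝ) :=
          mul_le_mul_of_nonneg_right hη₃b hu0
        have h3 : 0 ≤ η₃ * (2 * N) * ((J / N : ℕ) : ℝ) := by positivity
        nlinarith only [h1, h2, h3] }

open Classical in
/-- **The assembly.** -/
theorem slo_of_rows {S : FCl (k + 1)} (hYDG : YDG k) (hCORE : CORE k) (hH1F : H1F S)
    (hDAT : DAT S) (hLIN : LIN S) (hMKF : MKF S) (hSHD : SHD S) (hH5F : H5F S) (hH2S : H2S S)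
    (hVIS : VIS S) (hFIN : FIN S) : SLO S := by
  intro c h₁ X K ε hc hh hX hK hε
  obtain ⟨c', hc', hc'1, hc'c⟩ : ∃ c' : ℝ, 0 < c' ∧ c' ≤ 1 ∧ c' ≤ c :=
    ⟨min c 1, lt_min hc one_pos, min_le_right _ _, min_le_left _ _⟩
  obtain ⟨κ₂, κ, π₀, ι, ε₀, C₁, j₀, X₀, hκ₂, hκ₂1, hκ, hκ1, hπ₀, hι, hε₀, hC⟩ :=
    (core_iff k).1 hCORE K (C0 k K) (c' / 2) (1 / 8) hK (one_le_C0 k K) (by positivity)
      (by linarith only [hc'1]) (by norm_num)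
  obtain ⟨CY, hCY⟩ := hYDG
  obtain ⟨C₂, hC₂, hV⟩ := hVIS c' h₁ X K hc' hc'1 hh hX hK
  obtain ⟨ε₂, hε₂0, hε₂ε, hε₂ι⟩ : ∃ ε₂ : ℝ, 0 < ε₂ ∧ ε₂ * 64 ≤ ι * ε ∧ ε₂ * 64 ≤ ι := by
    refine ⟨ι * min ε 1 / 64, by positivity, ?_, ?_⟩
    · have := mul_le_mul_of_nonneg_left (min_le_left ε 1) hι.le
      linarith only [this]
    · have := mul_le_mul_of_nonneg_left (min_le_right ε 1) hι.le
      linarith only [this]
  obtain ⟨B₂s, hB₂s, hS1⟩ := hSHD c' h₁ X K ι hc' hc'1 hh hX hK hι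
  obtain ⟨B₂h, hB₂h, hH1⟩ := hH5F c' h₁ X K κ π₀ hc' hc'1 hh hX hK hκ hπ₀
  obtain ⟨B₂x, hB₂x, hX1⟩ := hH2S c' h₁ X K ε₂ hc' hc'1 hh hX hK hε₂0
  obtain ⟨B₁, hB1s, hB1h, hB1x, hB1κ, hB1ι, hB1K⟩ := exists_B1 K C₂ B₂s B₂h B₂x hκ₂ hι
  obtain ⟨B₀s, hS2⟩ := hS1 B₁ hB1s
  obtain ⟨B₀h, hH2⟩ := hH1 B₁ hB1h
  obtain ⟨B₀x, hX2⟩ := hX1 B₁ hB1x
  obtain ⟨B, hBs, hBh, hBx, hB1, hBK⟩ : ∃ B : ℕ, B₀s ≤ B ∧ B₀h ≤ B ∧ B₀x ≤ B ∧ B₁ + 6 ≤ B ∧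
      K + 2 ≤ B := ⟨B₀s + B₀h + B₀x + B₁ + K + 6, by omega, by omega, by omega, by omega,
    by omega⟩
  obtain ⟨L₁s, hS3⟩ := hS2 B hBs
  obtain ⟨L₁h, hH3⟩ := hH2 B hBh
  obtain ⟨L₁x, hX3⟩ := hX2 B hBx
  refine ⟨B, 1, one_pos, by omega, ?_⟩
  obtain ⟨σ, hσ⟩ : ∃ σ : ℝ, σ = ε / (4 * (K + 1)) := ⟨_, rfl⟩
  have hσ0 : 0 < σ := by rw [hσ]; positivity
  have hσ1 : σ * (4 * ((K : ℝ) + 1)) = ε := by
    rw [hσ]
    field_simp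
  obtain ⟨Q₀, hQ₀⟩ := exists_nat_gt (64 * k / (ι * σ))
  refine ⟨Q₀ + 1, fun Q hQ γ hγ => ?_⟩
  have hQ0 : 0 < Q := by omega
  have hQr : (0 : ℝ) < Q := by exact_mod_cast hQ0
  have hQk : 64 * (k : ℝ) ≤ Q * (ι * σ) := by
    rw [div_lt_iff₀ (by positivity)] at hQ₀
    have : (Q₀ : ℝ) ≤ Q := by exact_mod_cast (by omega : Q₀ ≤ Q)
    have h2 : (Q₀ : ℝ) * (ι * σ) ≤ Q * (ι * σ) := mul_le_mul_of_nonneg_right this (by positivity)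
    linarith only [hQ₀, h2]
  obtain ⟨M₁, hM₁⟩ := exists_M1 k B B₁ Q hσ0 hι hε hγ
  refine ⟨M₁, fun M hM => ?_⟩
  obtain ⟨m1, m2, m3, m4, m5, hMn⟩ := hM₁ M hM
  have hM0 : (0 : ℝ) < M := by exact_mod_cast hMn
  have hB₁0 : 0 < B₁ := by omega
  have hB₁r : (0 : ℝ) < B₁ := by exact_mod_cast hB₁0
  obtain ⟨η₂, hη₂⟩ : ∃ η₂ : ℝ, η₂ = ι * B₁ / (32 * M) := ⟨_, rfl⟩
  have hη₂0 : 0 < η₂ := by rw [hη₂]; positivity
  obtain ⟨L₁v, hV1⟩ := hV η₂ hη₂0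
  obtain ⟨N₁, hN₁⟩ := hDAT c' h₁ X K hc' hh hX hK
  refine ⟨L₁s + L₁h + L₁x + L₁v + N₁ + 2 * K + 8, fun L hL N hNM i₁ ρ hρ => ?_⟩
  obtain ⟨x, hx⟩ : ∃ x : ℕ, x = B₁ * L := ⟨_, rfl⟩
  obtain ⟨q, hq⟩ : ∃ q : ℕ, q = N / Q + x + 5 := ⟨_, rfl⟩
  have hL1 : 1 ≤ L := by omega
  have hLr : (1 : ℝ) ≤ L := by exact_mod_cast hL1
  have hNL : L ≤ N := by
    rw [hNM]
    exact Nat.le_mul_of_pos_left L hMn
  have hN0 : 0 < N := by omega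
  have hNr : (0 : ℝ) < N := by exact_mod_cast hN0
  have hNr' : (N : ℝ) = M * L := by
    rw [hNM]
    push_cast
    ring
  have hxr : (x : ℝ) = B₁ * L := by
    rw [hx]
    push_cast
    ring
  have hx1 : 1 ≤ x := by
    rw [hx]
    exact Nat.mul_pos hB₁0 hL1
  have hx1r : (1 : ℝ) ≤ x := by exact_mod_cast hx1
  have hρN : ρ ≤ N := by
    have h1 : (ρ : ℝ) ≤ N := by
      have : 0 ≤ X * N := by positivity
      linarith only [hρ, this]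
    exact_mod_cast h1
  have hxs : B₂s * L ≤ x := by rw [hx]; exact Nat.mul_le_mul_right _ hB1s
  have hxh : B₂h * L ≤ x := by rw [hx]; exact Nat.mul_le_mul_right _ hB1h
  have hxx : B₂x * L ≤ x := by rw [hx]; exact Nat.mul_le_mul_right _ hB1x
  obtain ⟨η₁, hη₁⟩ : ∃ η₁ : ℝ, η₁ = ι * σ / 128 := ⟨_, rfl⟩
  have hη₁0 : 0 < η₁ := by rw [hη₁]; positivity
  obtain ⟨η₃, hη₃0, hη₃a, hη₃b⟩ := exists_eta (x := x) (N := N) j₀ hι hε₀ (by linarith only [hx1r]) hNr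
  obtain ⟨Cl, hCl⟩ := thrT_lip (k + 1) K
  obtain ⟨uc, huc⟩ := exists_nat_gt (32 * |CY| / ι + Real.log (2 * C0 k K + 5))
  -- the claims
  have F1 := hH1F η₃ hη₃0
  have F2 := hN₁ N (by omega) i₁ ρ hρ
  have F3 := lin_clg hLIN hc' hh hX hK hι N i₁ ρ q hρ
  have F4 := mkf_clg' hMKF hc' hh hX hK hη₁0 N i₁ ρ q x hx1 hρ
  have F5 := shd_clg (S := S) (c := c') (h₁ := h₁) (K := K) (ι := ι) N i₁ ρ q x L B
    fun R a w h1 h2 h3 h4 h5 => hS3 L (by omega) N x hxs hx.le i₁ ρ R q a w h1 h2 h3 h4 h5 hρ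
  have F6 := h5_clg (S := S) (c := c') (h₁ := h₁) (K := K) (κ := κ) (π₀ := π₀) N i₁ ρ q x L B
    fun R a w h1 h2 h3 h4 h5 => hH3 L (by omega) N x hxh hx.le i₁ ρ R q a w h1 h2 h3 h4 h5 hρ
  have F7 := h2_clg (S := S) (c := c') (h₁ := h₁) (K := K) (ε₂ := ε₂) N i₁ ρ q x L B
    fun R a w a' w' h1 h2 h3 h4 h5 h6 h7 =>
      hX3 L (by omega) N x hxx hx.le i₁ ρ R q a w a' w' h1 h2 h3 h4 h5 h6 h7 hρ
  have F8 := vis_clg (S := S) (c := c') (h₁ := h₁) (K := K) (η := η₂) (C₂ := C₂) N i₁ ρ q L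
    fun R a w h1 h2 h3 h4 h5 h6 => hV1 L (by omega) N i₁ ρ R q a w h1 h2 h3 h4 h5 h6 hρ
  have F9 := fin_clg (C₁ := C₁) hFIN hc' hh hX hK N i₁ ρ q L (by omega) hρ
  refine Clg.mono (J₂ := N * (X₀ + j₀ + Cl + uc + 2))
    ((((((((F1.and F2).and F3).and F4).and F5).and F6).and F7).and F8).and F9) ?_
  intro J hJ F A G hCh hPl
  have hPl' := Pls_mono hc'c hPl
  obtain ⟨hu₀, hNJ, hJu⟩ := mesh hN0 hJ
  obtain ⟨d, fc⟩ := fct_of (CY := CY) ⟨hCh, hPl'⟩ G.1.1.1.1.1.1.1.1 G.1.1.1.1.1.1.1.2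
    G.1.1.1.1.1.1.2 G.1.1.1.1.1.2 G.1.1.1.1.2 G.1.1.1.2 G.1.1.2 G.1.2 G.2
    (fun d hl R a v hv h => hCY J F i₁ (Qa F A) N q d R a v (x * (J / N)) hl hv h)
  have hP : Par J N ρ K q x L B Q κ₂ ι ε₀ (η₃ * J) j₀ X₀ :=
    mk_par hN0 hK hNJ hρN hL1 hx hB₁0 hB1 hBK hB1κ hB1K hq hQ0 (by omega) (by omega) hJu hι
      hη₃0 hη₃a hη₃b
  obtain ⟨u, hu⟩ : ∃ u : ℕ, u = J / N := ⟨_, rfl⟩
  have hucr : (uc : ℝ) ≤ u := by
    rw [hu]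
    exact_mod_cast (by omega : uc ≤ J / N)
  have hu1 : (1 : ℝ) ≤ u := by
    rw [hu]
    exact_mod_cast (by omega : 1 ≤ J / N)
  have hxu : (u : ℝ) ≤ x * u := le_mul_of_one_le_left (by linarith only [hu1]) hx1r
  have hcy0 : 0 ≤ 32 * |CY| / ι := by positivity
  have hlc0 : 0 ≤ Real.log (2 * C0 k K + 5) := Real.log_nonneg (by
    have := one_le_C0 k K
    linarith only [this])
  refine fam_bound (η₁ := η₁) (σ := σ) hC fc hP ?_ hc'c hγ ?_ hι hε₂0.le hε₂ι hε₂ε hη₁0.le hJu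
    ?_ ?_ ?_ rfl ?_ hσ1 ?_ ?_ ?_ ?_ ?_
  · intro a w
    have h := hCl J F i₁ N ρ A a (a + 1) w (by omega) (by omega)
    have e : K * (a + 1 - a) = K := by
      rw [Nat.add_sub_cancel_left, Nat.mul_one]
    omega
  · rw [hNr']
    push_cast
    exact Num.nA m4 hLr
  · rw [← hu]
    have h1 : 32 * |CY| / ι ≤ x * u := by linarith only [huc, hucr, hxu, hlc0]
    rw [div_le_iff₀ hι] at h1
    have := le_abs_self CY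
    linarith only [h1, this]
  · rw [← hu]
    have h1 : (C₂ : ℝ) * L ≤ ι / 16 * x := by
      rw [hxr]
      exact Num.nB hB1ι (by linarith only [hLr])
    have h2 : η₂ * N = ι / 32 * x := by
      rw [hη₂, hNr', hxr]
      field_simp
    rw [h2]
    have h3 : (C₂ : ℝ) * L + ι / 32 * x ≤ 3 * ι / 32 * x := by linarith only [h1]
    calc ((C₂ : ℝ) * L + ι / 32 * x) * (u : ℝ) ≤ 3 * ι / 32 * x * u :=
          mul_le_mul_of_nonneg_right h3 (by linarith only [hu1])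
      _ = _ := by ring
  · rw [← hu]
    linarith only [huc, hucr, hxu, hcy0]
  · rw [hη₁]
    ring
  · rw [hNr']
    exact Num.nC m1 (by linarith only [hLr])
  · exact Num.nD hQk hNr.le hι hQr
  · rw [hNr', hxr]
    exact Num.nE m2 (by linarith only [hLr]) hι
  · have e : ε / 16 * ((N : ℝ) / Q) = M * ε * L / (16 * Q) := by
      rw [hNr']
      field_simp
    rw [e, le_div_iff₀ (by positivity), hxr]
    have := mul_le_mul_of_nonneg_right m3 (by linarith only [hLr] : (0 : ℝ) ≤ L)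
    linarith only [this]
  · rw [hNr']
    exact Num.nF m5 hLr hQr

end Pool.SLF
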